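import Mathlib

/-!
# Codes of Borel sets, Borel graphs and their Borel isomorphism

The definitions used in the theorem on the projective complexity of the Borel isomorphism relation.
-/

set_option autoImplicit false

open Set MeasureTheory TopologicalSpace

namespace Pool.Agent.TH723.BI

/-- The Baire space `ℕ^ℕ`. -/
abbrev Baire : Type := ℕ → ℕ

/-- The `n`-th subcode of `c`: the entry `m` of `sub c n` is the entry `⟨n, m⟩ + 1` of `c`. -/
def sub (c : Baire) (n : ℕ) : Baire := fun m => c (Nat.pair n m + 1)

/-- The standard coding of Borel subsets of `Y` by points of the Baire space, relative to a sequence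
`U` of basic open sets: `c` codes `U (c 1)` if `c 0 = 0`; if `c 0 ≠ 0` and each subcode `sub c n`
codes a set `B n`, then `c` codes `⋃ n, (B n)ᶜ`. -/
inductive IsCode {Y : Type} (U : ℕ → Set Y) : Baire → Set Y → Prop
  | leaf (c : Baire) (h : c 0 = 0) : IsCode U c (U (c 1))
  | node (c : Baire) (h : c 0 ≠ 0) (B : ℕ → Set Y) (hB : ∀ n, IsCode U (sub c n) (B n)) :
      IsCode U c (⋃ n, (B n)ᶜ)

/-- A set is `Σ¹₂` if it is the projection along the Baire space of a coanalytic set. -/
def Sigma12 {α : Type} [TopologicalSpace α] (A : Set α) : Prop :=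
  ∃ P : Set (α × Baire), AnalyticSet Pᶜ ∧ ∀ a, a ∈ A ↔ ∃ y, (a, y) ∈ P

section

variable {X : Type} [MeasurableSpace X]

/-- `G` is a Borel graph on `X`: a Borel, irreflexive and symmetric relation. -/
def BorelGraph (G : Set (X × X)) : Prop :=
  MeasurableSet G ∧ (∀ x, (x, x) ∉ G) ∧ ∀ x x', (x, x') ∈ G → (x', x) ∈ G

/-- `G` and `H` are Borel isomorphic: a Borel bijection of `X` carries `G` to `H`. -/
def BorelIso (G H : Set (X × X)) : Prop :=
  ∃ f : X → X, Measurable f ∧ Function.Bijective f ∧
    ∀ x x', (x, x') ∈ G ↔ (f x, f x') ∈ H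

/-- `G` is a tame forest: it is locally finite and acyclic, and its connectedness relation is smooth,
that is, Borel reducible to equality. -/
def TameForest (G : Set (X × X)) : Prop :=
  (∀ x, {x' | (x, x') ∈ G}.Finite) ∧
    (SimpleGraph.fromRel fun x x' => (x, x') ∈ G).IsAcyclic ∧
    ∃ s : X → X, Measurable s ∧
      ∀ x x', s x = s x' ↔ Relation.EqvGen (fun x x' => (x, x') ∈ G) x x'

/-- The set of codes of Borel graphs on `X` which are tame forests. -/
def ForestCodes (U : ℕ → Set (X × X)) : Set Baire :=
  {c | ∃ G, IsCode U c G ∧ BorelGraph G ∧ TameForest G}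

/-- The relation of Borel isomorphism, as a binary relation on the codes of Borel graphs. -/
def isoRel (U : ℕ → Set (X × X)) : Set (Baire × Baire) :=
  {p | ∃ G H, IsCode U p.1 G ∧ IsCode U p.2 H ∧ BorelGraph G ∧ BorelGraph H ∧ BorelIso G H}

end

end Pool.Agent.TH723.BI
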