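import Mathlib
import Pool.Agent.TH723.BI.Defs

/-!
# Codes of Borel sets, evaluations, and an undecidable uniformization problem
-/

set_option autoImplicit false

open Set MeasureTheory TopologicalSpace

namespace Pool.Agent.TH723.BI

variable {Y : Type} {U : ℕ → Set Y}

theorem IsCode.unique {c : Baire} {B B' : Set Y} (h : IsCode U c B) (h' : IsCode U c B') :
    B = B' := by
  induction h generalizing B' with
  | leaf c h0 =>
    cases h' with
    | leaf _ _ => rfl
    | node _ h1 _ _ => exact absurd h0 h1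
  | node c h0 B hB ih =>
    cases h' with
    | leaf _ h1 => exact absurd h1 h0
    | node _ _ B₂ hB₂ =>
      have : B = B₂ := funext fun n => ih n (hB₂ n)
      rw [this]

theorem IsCode.measurableSet [MeasurableSpace Y] (hU : ∀ k, MeasurableSet (U k)) {c : Baire}
    {B : Set Y} (h : IsCode U c B) : MeasurableSet B := by
  induction h with
  | leaf c h0 => exact hU _
  | node c h0 B hB ih => exact MeasurableSet.iUnion fun n => (ih n).compl

/-- Assemble a code from its subcodes. -/
def mk (g : ℕ → Baire) : Baire := fun j =>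
  match j with
  | 0 => 1
  | j + 1 => g (Nat.unpair j).1 (Nat.unpair j).2

theorem sub_mk (g : ℕ → Baire) (n : ℕ) : sub (mk g) n = g n := by
  funext m
  simp [sub, mk]

theorem IsCode.mk {g : ℕ → Baire} {B : ℕ → Set Y} (h : ∀ n, IsCode U (g n) (B n)) :
    IsCode U (BI.mk g) (⋃ n, (B n)ᶜ) :=
  IsCode.node _ (by simp [BI.mk]) B fun n => by rw [sub_mk]; exact h n

theorem measurable_mk {α : Type} [MeasurableSpace α] {g : ℕ → α → Baire}
    (hg : ∀ n, Measurable (g n)) : Measurable fun a => mk fun n => g n a := by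
  refine measurable_pi_iff.2 fun j => ?_
  cases j with
  | zero => exact measurable_const
  | succ j => exact (measurable_pi_iff.1 (hg (Nat.unpair j).1)) (Nat.unpair j).2

/-- The leaf code of `U k`. -/
def lf (k : ℕ) : Baire := fun j => if j = 1 then k else 0

theorem isCode_lf (k : ℕ) : IsCode U (lf k) (U k) := by
  have h := IsCode.leaf (U := U) (lf k) (by simp [lf])
  simpa [lf] using h

/-- Sections of measurable sets have codes which depend measurably on the parameter. -/
theorem exists_code {α : Type} [MeasurableSpace α] [mY : MeasurableSpace Y]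
    (hU : mY = MeasurableSpace.generateFrom (range U)) {S : Set (α × Y)} (hS : MeasurableSet S) :
    ∃ f : α → Baire, Measurable f ∧ ∀ a, IsCode U (f a) {y | (a, y) ∈ S} := by
  classical
  let Pr : Set (α × Y) → Prop := fun S =>
    ∃ f : α → Baire, Measurable f ∧ ∀ a, IsCode U (f a) {y | (a, y) ∈ S}
  have hcompl : ∀ S, Pr S → Pr Sᶜ := by
    rintro S ⟨f, hf, h⟩
    refine ⟨fun a => mk fun _ => f a, measurable_mk fun _ => hf, fun a => ?_⟩
    have h1 := IsCode.mk (g := fun _ => f a) fun _ : ℕ => h a
    rw [iUnion_const] at h1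
    exact h1
  have hunion : ∀ S : ℕ → Set (α × Y), (∀ n, Pr (S n)) → Pr (⋃ n, S n) := by
    intro S hS
    have hS' : ∀ n, Pr (S n)ᶜ := fun n => hcompl _ (hS n)
    choose f hf h using hS'
    refine ⟨fun a => mk fun n => f n a, measurable_mk hf, fun a => ?_⟩
    have h1 := IsCode.mk (g := fun n => f n a) fun n => h n a
    convert h1 using 1
    ext y
    simp
  have hbase : ∀ k, Pr (Prod.snd ⁻¹' (U k)) := fun k =>
    ⟨fun _ => lf k, measurable_const, fun a => isCode_lf k⟩
  have huniv : Pr univ := by
    have h1 := hunion (fun n => if n = 0 then Prod.snd ⁻¹' (U 0) else (Prod.snd ⁻¹' (U 0))ᶜ) (by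
      intro n
      by_cases hn : n = 0
      · simp only [hn, if_true]; exact hbase 0
      · simp only [hn, if_false]; exact hcompl _ (hbase 0))
    convert h1 using 1
    symm
    rw [eq_univ_iff_forall]
    intro p
    by_cases hp : p ∈ Prod.snd ⁻¹' (U 0)
    · exact mem_iUnion.2 ⟨0, by simpa using hp⟩
    · exact mem_iUnion.2 ⟨1, by simpa using hp⟩
  have hempty : Pr ∅ := by
    have := hcompl _ huniv
    rwa [compl_univ] at this
  have hfst : ∀ s : Set α, MeasurableSet s → Pr (Prod.fst ⁻¹' s) := by
    intro s hs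
    obtain ⟨f, hf, h⟩ := huniv
    obtain ⟨g, hg, h'⟩ := hempty
    refine ⟨fun a => if a ∈ s then f a else g a, Measurable.ite hs hf hg, fun a => ?_⟩
    by_cases ha : a ∈ s
    · simp only [ha, if_true]
      have h1 := h a
      convert h1 using 1
      ext y
      simp [ha]
    · simp only [ha, if_false]
      have h1 := h' a
      convert h1 using 1
      ext y
      simp [ha]
  let m' : MeasurableSpace (α × Y) :=
    { MeasurableSet' := Pr
      measurableSet_empty := hempty
      measurableSet_compl := hcompl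
      measurableSet_iUnion := hunion }
  have hle : (Prod.instMeasurableSpace : MeasurableSpace (α × Y)) ≤ m' := by
    unfold Prod.instMeasurableSpace MeasurableSpace.prod
    refine sup_le ?_ ?_
    · rintro _ ⟨s, hs, rfl⟩
      exact hfst s hs
    · rw [hU, MeasurableSpace.comap_generateFrom]
      refine MeasurableSpace.generateFrom_le ?_
      rintro _ ⟨_, ⟨k, rfl⟩, rfl⟩
      exact hbase k
  exact hle S hS

/-- A measurable set has a code. -/
theorem exists_code' [mY : MeasurableSpace Y] (hU : mY = MeasurableSpace.generateFrom (range U))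
    {S : Set Y} (hS : MeasurableSet S) : ∃ c : Baire, IsCode U c S := by
  obtain ⟨f, -, h⟩ := exists_code (α := Unit) hU (measurable_snd hS : MeasurableSet (Prod.snd ⁻¹' S))
  exact ⟨f (), h ()⟩

/-- The subcode of `c` at the node `s`. -/
def nd : Baire → List ℕ → Baire
  | c, [] => c
  | c, n :: s => nd (sub c n) s

/-- The node `s` is reachable: it lies beyond no leaf of `c`. -/
def Rch : Baire → List ℕ → Prop
  | _, [] => True
  | c, n :: s => c 0 ≠ 0 ∧ Rch (sub c n) s

/-- `e` evaluates the code `c` at the point `p`: it assigns the correct truth values to all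
reachable nodes. -/
def EV (U : ℕ → Set Y) (c : Baire) (p : Y) (e : List ℕ → Bool) : Prop :=
  ∀ s, Rch c s → (e s = true ↔ (nd c s 0 = 0 ∧ p ∈ U (nd c s 1)) ∨
    (nd c s 0 ≠ 0 ∧ ∃ n, e (s ++ [n]) = false))

theorem EV.sub {c : Baire} {p : Y} {e : List ℕ → Bool} (h : EV U c p e) (h0 : c 0 ≠ 0) (n : ℕ) :
    EV U (BI.sub c n) p fun s => e (n :: s) := by
  intro s hs
  have := h (n :: s) ⟨h0, hs⟩
  exact this

theorem EV.root {c : Baire} {p : Y} {e : List ℕ → Bool} {B : Set Y} (hc : IsCode U c B)
    (h : EV U c p e) : e [] = true ↔ p ∈ B := by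
  induction hc generalizing e with
  | leaf c h0 =>
    have := h [] trivial
    simpa [nd, h0] using this
  | node c h0 B hB ih =>
    have h1 := h [] trivial
    simp only [nd, h0, ne_eq, not_false_eq_true, true_and, false_and, false_or, List.nil_append]
      at h1
    rw [h1, mem_iUnion]
    refine exists_congr fun n => ?_
    have h2 := ih n (h.sub h0 n)
    rw [mem_compl_iff, ← h2, Bool.not_eq_true]

theorem exists_EV {c : Baire} {B : Set Y} (hc : IsCode U c B) (p : Y) : ∃ e, EV U c p e := by
  classical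
  induction hc with
  | leaf c h0 =>
    refine ⟨fun _ => decide (p ∈ U (c 1)), fun s hs => ?_⟩
    cases s with
    | nil => simp [nd, h0]
    | cons n s => exact absurd h0 hs.1
  | node c h0 B hB ih =>
    choose e he using ih
    refine ⟨fun s => match s with
      | [] => decide (∃ n, e n [] = false)
      | n :: s => e n s, fun s hs => ?_⟩
    cases s with
    | nil => simp [nd, h0]
    | cons n s => exact he n s hs.2

/-- Follow the node of the tree `T` through the code `c`, where `m` tells which child to take. -/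
def walk : Baire → (List ℕ → ℕ) → List ℕ → Baire
  | c, _, [] => c
  | c, m, k :: t => walk (sub c (m [k])) (fun t' => m (k :: t')) t

theorem walk_congr (t : List ℕ) : ∀ (c : Baire) (m m' : List ℕ → ℕ), (∀ t ≠ [], m t = m' t) →
    walk c m t = walk c m' t := by
  induction t with
  | nil => intro c m m' _; rfl
  | cons k t ih =>
    intro c m m' h
    show walk (sub c (m [k])) (fun t' => m (k :: t')) t =
      walk (sub c (m' [k])) (fun t' => m' (k :: t')) t
    rw [h [k] (by simp)]
    exact ih _ _ _ fun t _ => h _ (by simp)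

/-- `m` maps the tree `T` into the tree of non-leaves of `c`. -/
def MapTo (T : Set (List ℕ)) (c : Baire) (m : List ℕ → ℕ) : Prop :=
  ∀ t k, t ++ [k] ∈ T → walk c m t 0 ≠ 0

/-- The well-founded trees. -/
inductive WFT : Set (List ℕ) → Prop
  | mk (T : Set (List ℕ)) (h : ∀ k, [k] ∈ T → WFT {t | k :: t ∈ T}) : WFT T

theorem range_map_succ (z : ℕ → ℕ) (n : ℕ) :
    (List.range (n + 1)).map z = z 0 :: (List.range n).map (fun i => z (i + 1)) := by
  rw [List.range_succ_eq_map, List.map_cons, List.map_map]
  rfl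

theorem range_map_succ' (z : ℕ → ℕ) (n : ℕ) :
    (List.range (n + 1)).map z = (List.range n).map z ++ [z n] := by
  rw [List.range_succ, List.map_append]
  rfl

/-- A well-founded code has no infinite branch along a walk. -/
theorem IsCode.walk_stops {c : Baire} {B : Set Y} (hc : IsCode U c B) (m : List ℕ → ℕ)
    (z : ℕ → ℕ) : ∃ n, walk c m ((List.range n).map z) 0 = 0 := by
  induction hc generalizing m z with
  | leaf c h0 => exact ⟨0, h0⟩
  | node c h0 B hB ih =>
    obtain ⟨n, hn⟩ := ih (m [z 0]) (fun t' => m (z 0 :: t')) (fun i => z (i + 1))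
    refine ⟨n + 1, ?_⟩
    rw [range_map_succ]
    exact hn

theorem not_MapTo {c : Baire} {B : Set Y} (hc : IsCode U c B) {T : Set (List ℕ)} {z : ℕ → ℕ}
    (hz : ∀ n, (List.range n).map z ∈ T) (m : List ℕ → ℕ) : ¬ MapTo T c m := by
  intro h
  obtain ⟨n, hn⟩ := hc.walk_stops m z
  refine h ((List.range n).map z) (z n) ?_ hn
  rw [← range_map_succ']
  exact hz _

/-- A tree without infinite branches is well-founded. -/
theorem wft_of_no_branch {T : Set (List ℕ)} (hT : ∀ t s, t ++ s ∈ T → t ∈ T)
    (h : ¬ ∃ z : ℕ → ℕ, ∀ n, (List.range n).map z ∈ T) : WFT T := by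
  by_contra hcon
  have step : ∀ t : List ℕ, ¬ WFT {s | t ++ s ∈ T} → ∃ k, t ++ [k] ∈ T ∧
      ¬ WFT {s | (t ++ [k]) ++ s ∈ T} := by
    intro t ht
    by_contra hc
    push Not at hc
    apply ht
    refine WFT.mk _ fun k hk => ?_
    have := hc k hk
    simpa using this
  let St : Type := {t : List ℕ // ¬ WFT {s | t ++ s ∈ T}}
  let nx : St → ℕ := fun t => Classical.choose (step t.1 t.2)
  have hnx : ∀ t : St, t.1 ++ [nx t] ∈ T ∧ ¬ WFT {s | (t.1 ++ [nx t]) ++ s ∈ T} := fun t =>
    Classical.choose_spec (step t.1 t.2)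
  let st : ℕ → St := fun n => Nat.rec (⟨[], by simpa using hcon⟩ : St)
    (fun _ t => ⟨t.1 ++ [nx t], (hnx t).2⟩) n
  have hst : ∀ n, (st n).1 = (List.range n).map fun i => nx (st i) := by
    intro n
    induction n with
    | zero => rfl
    | succ n ih =>
      rw [range_map_succ', ← ih]
  apply h
  refine ⟨fun i => nx (st i), fun n => ?_⟩
  have h1 := (hnx (st n)).1
  rw [hst n, ← range_map_succ' (fun i => nx (st i)) n, range_map_succ'] at h1
  exact hT _ _ h1

/-- **The key lemma.** Fix a well-founded tree `T`. For a measurable family of codes there is a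
measurable set `M` of parameters such that on `M` one can map `T` into the code measurably,
and off `M` one can evaluate the code measurably. -/
theorem key {W : Type} [MeasurableSpace W] [MeasurableSpace Y] (hU : ∀ k, MeasurableSet (U k))
    (p : W → Y) (hp : Measurable p) {T : Set (List ℕ)} (hT : WFT T)
    (hpc : ∀ t s, t ++ s ∈ T → t ∈ T) : ∀ q : W → Baire, Measurable q →
    ∃ (M : Set W) (μ : W → List ℕ → ℕ) (ε : W → List ℕ → Bool), MeasurableSet M ∧
      Measurable μ ∧ Measurable ε ∧ (∀ w ∈ M, MapTo T (q w) (μ w)) ∧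
      (∀ w, w ∉ M → EV U (q w) (p w) (ε w)) := by
  classical
  induction hT with
  | mk T h ih =>
  intro q hq
  have hsub : ∀ n, Measurable fun w => sub (q w) n := fun n =>
    measurable_pi_iff.2 fun m => (measurable_pi_iff.1 hq) _
  have hpc' : ∀ k, ∀ t s, t ++ s ∈ {t | k :: t ∈ T} → t ∈ {t | k :: t ∈ T} := by
    intro k t s hts
    exact hpc (k :: t) s hts
  have hex : ∀ k n, ∃ (M : Set W) (μ : W → List ℕ → ℕ) (ε : W → List ℕ → Bool),
      MeasurableSet M ∧ Measurable μ ∧ Measurable ε ∧
      ([k] ∈ T → (∀ w ∈ M, MapTo {t | k :: t ∈ T} (sub (q w) n) (μ w)) ∧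
      (∀ w, w ∉ M → EV U (sub (q w) n) (p w) (ε w))) := by
    intro k n
    by_cases hk : [k] ∈ T
    · obtain ⟨M, μ, ε, h1, h2, h3, h4, h5⟩ := ih k hk (hpc' k) _ (hsub n)
      exact ⟨M, μ, ε, h1, h2, h3, fun _ => ⟨h4, h5⟩⟩
    · exact ⟨univ, fun _ _ => 0, fun _ _ => false, MeasurableSet.univ, measurable_const,
        measurable_const, fun h => absurd h hk⟩
  choose M μ ε hM hμ hε hkn using hex
  have hq0 : MeasurableSet {w | q w 0 = 0} :=
    (measurable_pi_iff.1 hq 0) (measurableSet_singleton 0)
  let D : ℕ → Set W := fun k => if [k] ∈ T then {w | q w 0 = 0}ᶜ ∩ ⋃ n, M k n else univ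
  have hD : ∀ k, MeasurableSet (D k) := by
    intro k
    by_cases hk : [k] ∈ T
    · simp only [D, hk, if_true]
      exact hq0.compl.inter (MeasurableSet.iUnion fun n => hM k n)
    · simp only [D, hk, if_false]
      exact MeasurableSet.univ
  -- selection of the child
  have hfind : ∀ k w, ∃ n, w ∈ M k n ∨ ¬ ∃ n, w ∈ M k n := by
    intro k w
    by_cases hw : ∃ n, w ∈ M k n
    · obtain ⟨n, hn⟩ := hw
      exact ⟨n, Or.inl hn⟩
    · exact ⟨0, Or.inr hw⟩
  let nn : ℕ → W → ℕ := fun k w => Nat.find (hfind k w)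
  have hnn : ∀ k, Measurable (nn k) := by
    intro k
    refine measurable_find (hfind k) fun n => ?_
    have : {w | w ∈ M k n ∨ ¬ ∃ n, w ∈ M k n} = M k n ∪ (⋃ n, M k n)ᶜ := by
      ext w; simp
    rw [this]
    exact (hM k n).union (MeasurableSet.iUnion fun n => hM k n).compl
  have hnnM : ∀ k w, (∃ n, w ∈ M k n) → w ∈ M k (nn k w) := by
    intro k w hw
    rcases Nat.find_spec (hfind k w) with h1 | h1
    · exact h1
    · exact absurd hw h1
  -- selection of the least bad `k`
  have hfind2 : ∀ w, ∃ k, ([k] ∈ T ∧ ¬ ∃ n, w ∈ M k n) ∨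
      ¬ ∃ k, ([k] ∈ T ∧ ¬ ∃ n, w ∈ M k n) := by
    intro w
    by_cases hw : ∃ k, ([k] ∈ T ∧ ¬ ∃ n, w ∈ M k n)
    · obtain ⟨k, hk⟩ := hw
      exact ⟨k, Or.inl hk⟩
    · exact ⟨0, Or.inr hw⟩
  let kk : W → ℕ := fun w => Nat.find (hfind2 w)
  have hbad : ∀ k, MeasurableSet {w | [k] ∈ T ∧ ¬ ∃ n, w ∈ M k n} := by
    intro k
    by_cases hk : [k] ∈ T
    · have : {w | [k] ∈ T ∧ ¬ ∃ n, w ∈ M k n} = (⋃ n, M k n)ᶜ := by
        ext w; simp [hk]
      rw [this]
      exact (MeasurableSet.iUnion fun n => hM k n).compl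
    · have : {w | [k] ∈ T ∧ ¬ ∃ n, w ∈ M k n} = ∅ := by
        ext w; simp [hk]
      rw [this]
      exact MeasurableSet.empty
  have hkk : Measurable kk := by
    refine measurable_find hfind2 fun k => ?_
    have : {w | ([k] ∈ T ∧ ¬ ∃ n, w ∈ M k n) ∨ ¬ ∃ k, ([k] ∈ T ∧ ¬ ∃ n, w ∈ M k n)} =
        {w | [k] ∈ T ∧ ¬ ∃ n, w ∈ M k n} ∪ (⋃ k, {w | [k] ∈ T ∧ ¬ ∃ n, w ∈ M k n})ᶜ := by
      ext w; simp
    rw [this]
    exact (hbad k).union (MeasurableSet.iUnion fun k => hbad k).compl
  have hkks : ∀ w, (∃ k, ([k] ∈ T ∧ ¬ ∃ n, w ∈ M k n)) →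
      [kk w] ∈ T ∧ ¬ ∃ n, w ∈ M (kk w) n := by
    intro w hw
    rcases Nat.find_spec (hfind2 w) with h1 | h1
    · exact h1
    · exact absurd hw h1
  let μ' : W → List ℕ → ℕ := fun w t => match t with
    | [] => 0
    | [k] => nn k w
    | k :: j :: t => μ k (nn k w) w (j :: t)
  let ε' : W → List ℕ → Bool := fun w s =>
    if q w 0 = 0 then decide (p w ∈ U (q w 1)) else
    match s with
    | [] => decide (∃ n, ε (kk w) n w [] = false)
    | n :: s => ε (kk w) n w s
  refine ⟨⋂ k, D k, μ', ε', MeasurableSet.iInter hD, ?_, ?_, ?_, ?_⟩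
  · refine measurable_pi_iff.2 fun t => ?_
    match t with
    | [] => exact measurable_const
    | [k] => exact hnn k
    | k :: j :: t =>
      have h1 : Measurable fun x : ℕ × W => μ k x.1 x.2 (j :: t) :=
        measurable_from_prod_countable_right fun n => (measurable_pi_iff.1 (hμ k n)) _
      exact h1.comp ((hnn k).prodMk measurable_id)
  · refine measurable_pi_iff.2 fun s => ?_
    have hmem : MeasurableSet {w | p w ∈ U (q w 1)} := by
      have : {w | p w ∈ U (q w 1)} = ⋃ k, ((fun w => q w 1) ⁻¹' {k} ∩ p ⁻¹' (U k)) := by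
        ext w; simp
      rw [this]
      exact MeasurableSet.iUnion fun k =>
        (((measurable_pi_iff.1 hq) 1) (measurableSet_singleton k)).inter (hp (hU k))
    have hdec : Measurable fun w => decide (p w ∈ U (q w 1)) :=
      measurable_to_bool (by
        convert hmem using 1
        ext w; simp)
    have h2 : ∀ n s, Measurable fun w => ε (kk w) n w s := by
      intro n s
      have h1 : Measurable fun x : ℕ × W => ε x.1 n x.2 s :=
        measurable_from_prod_countable_right fun k => (measurable_pi_iff.1 (hε k n)) _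
      exact h1.comp (hkk.prodMk measurable_id)
    refine Measurable.ite hq0 hdec ?_
    match s with
    | [] =>
      refine measurable_to_bool ?_
      have : (fun w => decide (∃ n, ε (kk w) n w [] = false)) ⁻¹' {true} =
          ⋃ n, (fun w => ε (kk w) n w []) ⁻¹' {false} := by
        ext w; simp
      rw [this]
      exact MeasurableSet.iUnion fun n => h2 n [] (measurableSet_singleton _)
    | n :: s => exact h2 n s
  · intro w hw t k htk
    rw [mem_iInter] at hw
    match t with
    | [] =>
      have h1 := hw k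
      have hk : [k] ∈ T := htk
      simp only [D, hk, if_true] at h1
      exact h1.1
    | j :: t =>
      have hj : [j] ∈ T := hpc [j] (t ++ [k]) htk
      have h1 := hw j
      simp only [D, hj, if_true] at h1
      have h2 := (hkn j (nn j w) hj).1 w (hnnM j w (mem_iUnion.1 h1.2)) t k htk
      have h3 : walk (q w) (μ' w) (j :: t) = walk (sub (q w) (nn j w)) (μ j (nn j w) w) t := by
        show walk (sub (q w) (nn j w)) (fun t' => μ' w (j :: t')) t = _
        refine walk_congr _ _ _ _ fun t ht => ?_
        match t, ht with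
        | i :: t, _ => rfl
      rw [h3]
      exact h2
  · intro w hw s hs
    rw [mem_iInter, not_forall] at hw
    obtain ⟨k, hk⟩ := hw
    have hkT : [k] ∈ T := by
      by_contra hkT
      simp [D, hkT] at hk
    simp only [D, hkT, if_true, mem_inter_iff, mem_compl_iff, mem_ofPred_eq, not_and] at hk
    by_cases h0 : q w 0 = 0
    · cases s with
      | nil => simp [ε', nd, h0]
      | cons n s => exact absurd h0 hs.1
    · have h1 : ∃ k, ([k] ∈ T ∧ ¬ ∃ n, w ∈ M k n) := ⟨k, hkT, fun h => hk h0 (mem_iUnion.2 h)⟩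
      obtain ⟨h2, h3⟩ := hkks w h1
      push Not at h3
      have h4 : ∀ n, EV U (sub (q w) n) (p w) (ε (kk w) n w) := fun n =>
        (hkn (kk w) n h2).2 w (h3 n)
      cases s with
      | nil => simp [ε', nd, h0]
      | cons n s =>
        have h5 := h4 n s hs.2
        simp only [ε', h0, if_false, List.cons_append]
        exact h5

end Pool.Agent.TH723.BI
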