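import Mathlib
import Pool.Agent.TH723.BI.Codes

/-!
# Existence of Borel uniformizations is hard
-/

set_option autoImplicit false

open Set MeasureTheory TopologicalSpace

namespace Pool.Agent.TH723.BI

/-- Subbasic open sets of the Baire space. -/
def UB (k : ℕ) : Set Baire := {c | c (Nat.unpair k).1 = (Nat.unpair k).2}

theorem UB_gen : (MeasurableSpace.pi : MeasurableSpace Baire) =
    MeasurableSpace.generateFrom (range UB) := by
  apply le_antisymm
  · refine iSup_le fun i => ?_
    rw [← measurable_iff_comap_le]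
    refine @measurable_to_countable' ℕ Baire _ _ (MeasurableSpace.generateFrom (range UB)) _ ?_
    intro n
    refine MeasurableSpace.measurableSet_generateFrom ⟨Nat.pair i n, ?_⟩
    ext c
    simp [UB]
  · refine MeasurableSpace.generateFrom_le ?_
    rintro _ ⟨k, rfl⟩
    have h : Measurable fun c : Baire => c (Nat.unpair k).1 := measurable_pi_apply _
    exact h (measurableSet_singleton (Nat.unpair k).2)

theorem measurableSet_UB (k : ℕ) : MeasurableSet (UB k) := by
  rw [UB_gen]
  exact MeasurableSpace.measurableSet_generateFrom ⟨k, rfl⟩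

/-- The space of witnesses. -/
abbrev Z : Type := Baire × Bool × (List ℕ → Bool) × (List ℕ → ℕ)

variable {α : Type}

/-- The relation to be uniformized: for a parameter `a` and a code `c` the witness
`(y, b, e, m)` is good if `e` evaluates the code `c` at the point `c` and gives a value different
from `b`, or if `m` maps the tree `T a y` into the tree of `c`. -/
def F (T : α → Baire → Set (List ℕ)) : Set (α × Baire × Z) :=
  {p | (EV UB p.2.1 p.2.1 p.2.2.2.2.1 ∧ p.2.2.2.2.1 [] ≠ p.2.2.2.1) ∨
    MapTo (T p.1 p.2.2.1) p.2.1 p.2.2.2.2.2}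

section meas

theorem measurable_sub (n : ℕ) : Measurable fun c : Baire => sub c n :=
  measurable_pi_iff.2 fun _ => measurable_pi_apply _

theorem measurable_nd (s : List ℕ) : Measurable fun c : Baire => nd c s := by
  induction s with
  | nil => exact measurable_id
  | cons n s ih => exact ih.comp (measurable_sub n)

theorem measurableSet_Rch (s : List ℕ) : MeasurableSet {c : Baire | Rch c s} := by
  induction s with
  | nil => exact MeasurableSet.univ
  | cons n s ih =>
    have h0 : MeasurableSet {c : Baire | c 0 ≠ 0} :=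
      ((measurable_pi_apply 0) (measurableSet_singleton 0)).compl
    exact h0.inter (measurable_sub n ih)

theorem measurableSet_EV {Y : Type} [MeasurableSpace Y] {U : ℕ → Set Y}
    (hU : ∀ k, MeasurableSet (U k)) :
    MeasurableSet {p : Baire × Y × (List ℕ → Bool) | EV U p.1 p.2.1 p.2.2} := by
  have : {p : Baire × Y × (List ℕ → Bool) | EV U p.1 p.2.1 p.2.2} = ⋂ s : List ℕ,
      {p | Rch p.1 s → (p.2.2 s = true ↔ (nd p.1 s 0 = 0 ∧ p.2.1 ∈ U (nd p.1 s 1)) ∨
        (nd p.1 s 0 ≠ 0 ∧ ∃ n, p.2.2 (s ++ [n]) = false))} := by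
    ext p
    simp [EV]
  rw [this]
  refine MeasurableSet.iInter fun s => ?_
  have m1 : Measurable fun p : Baire × Y × (List ℕ → Bool) => nd p.1 s :=
    (measurable_nd s).comp measurable_fst
  have m2 : ∀ t : List ℕ, Measurable fun p : Baire × Y × (List ℕ → Bool) => p.2.2 t := fun t =>
    (measurable_pi_apply t).comp (measurable_snd.comp measurable_snd)
  have s0 : MeasurableSet {p : Baire × Y × (List ℕ → Bool) | Rch p.1 s} :=
    measurable_fst (measurableSet_Rch s)
  have s1 : MeasurableSet {p : Baire × Y × (List ℕ → Bool) | p.2.2 s = true} :=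
    m2 s (measurableSet_singleton true)
  have s2 : MeasurableSet {p : Baire × Y × (List ℕ → Bool) | nd p.1 s 0 = 0} :=
    ((measurable_pi_apply 0).comp m1) (measurableSet_singleton 0)
  have s3 : MeasurableSet {p : Baire × Y × (List ℕ → Bool) | p.2.1 ∈ U (nd p.1 s 1)} := by
    have : {p : Baire × Y × (List ℕ → Bool) | p.2.1 ∈ U (nd p.1 s 1)} =
        ⋃ k, ((fun p : Baire × Y × (List ℕ → Bool) => nd p.1 s 1) ⁻¹' {k} ∩
          (fun p : Baire × Y × (List ℕ → Bool) => p.2.1) ⁻¹' (U k)) := by
      ext p; simp
    rw [this]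
    exact MeasurableSet.iUnion fun k =>
      (((measurable_pi_apply 1).comp m1) (measurableSet_singleton k)).inter
        ((measurable_fst.comp measurable_snd) (hU k))
  have s4 : MeasurableSet {p : Baire × Y × (List ℕ → Bool) | ∃ n, p.2.2 (s ++ [n]) = false} := by
    have : {p : Baire × Y × (List ℕ → Bool) | ∃ n, p.2.2 (s ++ [n]) = false} =
        ⋃ n : ℕ, (fun p : Baire × Y × (List ℕ → Bool) => p.2.2 (s ++ [n])) ⁻¹' {false} := by
      ext p; simp
    rw [this]
    exact MeasurableSet.iUnion fun n => m2 _ (measurableSet_singleton false)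
  have s5 := (s2.inter s3).union (s2.compl.inter s4)
  have s6 := (s1.inter s5).union (s1.compl.inter s5.compl)
  have s7 := s0.compl.union s6
  convert s7 using 1
  ext p
  simp only [mem_ofPred_eq, mem_union, mem_inter_iff, mem_compl_iff]
  tauto

/-- The function `walk` is jointly measurable. -/
theorem measurable_walk (t : List ℕ) :
    Measurable fun p : Baire × (List ℕ → ℕ) => walk p.1 p.2 t := by
  induction t with
  | nil => exact measurable_fst
  | cons k t ih =>
    have h1 : Measurable fun p : Baire × (List ℕ → ℕ) =>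
        ((sub p.1 (p.2 [k]), fun t' => p.2 (k :: t')) : Baire × (List ℕ → ℕ)) := by
      refine Measurable.prodMk ?_ ?_
      · have h2 : Measurable fun x : ℕ × Baire => sub x.2 x.1 :=
          measurable_from_prod_countable_right fun n => measurable_sub n
        have h3 : Measurable fun p : Baire × (List ℕ → ℕ) => p.2 [k] :=
          (measurable_pi_apply [k]).comp measurable_snd
        exact h2.comp (h3.prodMk measurable_fst)
      · exact measurable_pi_iff.2 fun t' => (measurable_pi_apply (k :: t')).comp measurable_snd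
    exact ih.comp h1

end meas

theorem measurableSet_F [MeasurableSpace α] {T : α → Baire → Set (List ℕ)}
    (hT : ∀ t, MeasurableSet {p : α × Baire | t ∈ T p.1 p.2}) : MeasurableSet (F T) := by
  have s1 : MeasurableSet {p : α × Baire × Z | EV UB p.2.1 p.2.1 p.2.2.2.2.1} := by
    have h1 : Measurable fun p : α × Baire × Z => ((p.2.1, p.2.1, p.2.2.2.2.1) :
        Baire × Baire × (List ℕ → Bool)) := by fun_prop
    exact h1 (measurableSet_EV measurableSet_UB)
  have s2 : MeasurableSet {p : α × Baire × Z | p.2.2.2.2.1 [] ≠ p.2.2.2.1} := by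
    have h1 : Measurable fun p : α × Baire × Z => p.2.2.2.2.1 [] :=
      (measurable_pi_apply []).comp (by fun_prop)
    have h2 : Measurable fun p : α × Baire × Z => p.2.2.2.1 := by fun_prop
    exact (measurableSet_eq_fun h1 h2).compl
  have s3 : MeasurableSet {p : α × Baire × Z | MapTo (T p.1 p.2.2.1) p.2.1 p.2.2.2.2.2} := by
    have : {p : α × Baire × Z | MapTo (T p.1 p.2.2.1) p.2.1 p.2.2.2.2.2} =
        ⋂ t : List ℕ, ⋂ k : ℕ, ({p | t ++ [k] ∈ T p.1 p.2.2.1}ᶜ ∪
          {p | walk p.2.1 p.2.2.2.2.2 t 0 ≠ 0}) := by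
      ext p
      simp only [MapTo, mem_ofPred_eq, mem_iInter, mem_union, mem_compl_iff]
      refine forall_congr' fun t => forall_congr' fun k => ?_
      tauto
    rw [this]
    refine MeasurableSet.iInter fun t => MeasurableSet.iInter fun k => MeasurableSet.union ?_ ?_
    · have h1 : Measurable fun p : α × Baire × Z => ((p.1, p.2.2.1) : α × Baire) := by fun_prop
      exact (h1 (hT (t ++ [k]))).compl
    · have h1 : Measurable fun p : α × Baire × Z => ((p.2.1, p.2.2.2.2.2) :
          Baire × (List ℕ → ℕ)) := by fun_prop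
      have h2 : Measurable fun p : α × Baire × Z => walk p.2.1 p.2.2.2.2.2 t 0 :=
        (measurable_pi_apply 0).comp ((measurable_walk t).comp h1)
      exact (h2 (measurableSet_singleton 0)).compl
  exact (s1.inter s2).union s3

/-- If all the trees have infinite branches there is no Borel uniformization. -/
theorem no_unif {T : α → Baire → Set (List ℕ)} {a : α}
    (h : ∀ y, ∃ z : ℕ → ℕ, ∀ n, (List.range n).map z ∈ T a y) :
    ¬ ∃ u : Baire → Z, Measurable u ∧ ∀ c, (a, c, u c) ∈ F T := by
  rintro ⟨u, hu, hF⟩
  have hB : MeasurableSet {c : Baire | (u c).2.1 = true} :=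
    (measurable_fst.comp (measurable_snd.comp hu)) (measurableSet_singleton true)
  obtain ⟨c, hc⟩ := exists_code' UB_gen hB
  rcases hF c with ⟨h1, h2⟩ | h1
  · have h3 := EV.root hc h1
    simp only [mem_ofPred_eq] at h3
    apply h2
    rw [Bool.eq_iff_iff]
    exact h3
  · obtain ⟨z, hz⟩ := h (u c).1
    exact not_MapTo hc hz _ h1

/-- If some tree is well-founded then there is a Borel uniformization. -/
theorem unif {T : α → Baire → Set (List ℕ)} {a : α} {y : Baire}
    (hpc : ∀ t s, t ++ s ∈ T a y → t ∈ T a y)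
    (h : ¬ ∃ z : ℕ → ℕ, ∀ n, (List.range n).map z ∈ T a y) :
    ∃ u : Baire → Z, Measurable u ∧ ∀ c, (a, c, u c) ∈ F T := by
  classical
  obtain ⟨M, μ, ε, hM, hμ, hε, h1, h2⟩ := key (W := Baire) measurableSet_UB id measurable_id
    (wft_of_no_branch hpc h) hpc id measurable_id
  refine ⟨fun c => (y, !(ε c []), ε c, μ c), ?_, fun c => ?_⟩
  · refine measurable_const.prodMk (Measurable.prodMk ?_ (hε.prodMk hμ))
    exact (measurable_of_countable (fun b : Bool => !b)).comp ((measurable_pi_apply []).comp hε)
  · by_cases hc : c ∈ M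
    · exact Or.inr (h1 c hc)
    · refine Or.inl ⟨h2 c hc, ?_⟩
      show ε c [] ≠ !(ε c [])
      cases ε c [] <;> simp

end Pool.Agent.TH723.BI
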