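import Mathlib
import Pool.Agent.TH723.BI.Unif

/-!
# Coding uniformization problems into isomorphism of Borel graphs
-/

set_option autoImplicit false

open Set MeasureTheory TopologicalSpace

namespace Pool.Agent.TH723.BI

/-- Coanalytic conditions are wellfoundedness conditions, for general Polish parameters. -/
theorem exists_tree {α : Type} [TopologicalSpace α] [PolishSpace α] [MeasurableSpace α]
    [BorelSpace α] {P : Set (α × Baire)} (hP : AnalyticSet P) :
    ∃ T : α → Baire → Set (List ℕ), (∀ a y t s, t ++ s ∈ T a y → t ∈ T a y) ∧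
      (∀ t, MeasurableSet {p : α × Baire | t ∈ T p.1 p.2}) ∧
      ∀ a y, (a, y) ∈ P ↔ ∃ z : ℕ → ℕ, ∀ n, (List.range n).map z ∈ T a y := by
  rw [AnalyticSet] at hP
  rcases hP with rfl | ⟨g, hg, rfl⟩
  · refine ⟨fun _ _ => ∅, fun a y t s h => h, fun t => ?_, fun a y => ?_⟩
    · simp
    · simp
  let cyl : List ℕ → Set Baire := fun t => {w | (List.range t.length).map w = t}
  refine ⟨fun a y => {t | (a, y) ∈ closure (g '' cyl t)}, ?_, ?_, ?_⟩
  · intro a y t s h
    refine closure_mono (image_mono ?_) h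
    intro w hw
    simp only [cyl, mem_ofPred_eq, List.length_append] at hw ⊢
    rw [List.range_add, List.map_append] at hw
    exact (List.append_inj hw (by simp)).1
  · intro t
    exact isClosed_closure.measurableSet
  · intro a y
    constructor
    · rintro ⟨z, hz⟩
      refine ⟨z, fun n => ?_⟩
      show (a, y) ∈ closure (g '' cyl ((List.range n).map z))
      refine subset_closure ⟨z, ?_, hz⟩
      simp [cyl]
    · rintro ⟨z, hz⟩
      refine ⟨z, ?_⟩
      by_contra hne
      obtain ⟨O₁, O₂, h1, h2, hz1, hp2, hd⟩ := t2_separation hne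
      have hV : IsOpen (g ⁻¹' O₁) := h1.preimage hg
      obtain ⟨I, u, hu, hIu⟩ := isOpen_pi_iff.1 hV z hz1
      let n := I.sup id + 1
      have h3 := hz n
      rw [mem_ofPred_eq, mem_closure_iff] at h3
      obtain ⟨q, hq2, w, hw, rfl⟩ := h3 O₂ h2 hp2
      have h4 : w ∈ g ⁻¹' O₁ := by
        apply hIu
        intro i hi
        have hi' : i < n := Nat.lt_succ_of_le (Finset.le_sup (f := id) hi)
        have h5 : w i = z i := by
          have h6 : (List.range n).map w = (List.range n).map z := by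
            simpa [cyl] using hw
          have h7 := congrArg (fun l => l[i]?) h6
          simpa [hi'] using h7
        rw [h5]
        exact (hu i hi).2
      exact disjoint_left.1 hd h4 hq2

/-! ### The graph of a set of blocks -/

/-- Names of blocks: a flag, the code `c` it encodes, a witness and a copy number. -/
abbrev Blk : Type := Bool × Baire × Z × ℕ

/-- The vertex set. -/
abbrev V : Type := Blk × (ℕ × ℕ)

/-- The number of leaves attached to the vertex `(i, 0)`. -/
def ell (c : Baire) (i : ℕ) : ℕ := Nat.pair i (c i) + if i = 0 then 2 else 1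

/-- The oriented edges of the tree coding `c`: the vertices `(i, 0)` form a ray, and `ell c i`
leaves `(i, j)`, `1 ≤ j ≤ ell c i`, are attached to `(i, 0)`. So the degree of `(i, 0)` is
`⟨i, c i⟩ + 3`. -/
def arr (c : Baire) (k k' : ℕ × ℕ) : Prop :=
  (k.2 = 0 ∧ k'.2 = 0 ∧ k'.1 = k.1 + 1) ∨
    (k.2 = 0 ∧ k'.2 ≠ 0 ∧ k'.1 = k.1 ∧ k'.2 ≤ ell c k.1)

/-- The graph with blocks `D`. -/
def gr (D : Set Blk) : Set (V × V) :=
  {p | p.1.1 = p.2.1 ∧ p.1.1 ∈ D ∧ (arr p.1.1.2.1 p.1.2 p.2.2 ∨ arr p.1.1.2.1 p.2.2 p.1.2)}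

theorem gr_symm {D : Set Blk} {v w : V} (h : (v, w) ∈ gr D) : (w, v) ∈ gr D := by
  obtain ⟨h1, h2, h3⟩ := h
  refine ⟨h1.symm, ?_, ?_⟩
  · exact h1 ▸ h2
  · have h4 : w.1 = v.1 := h1.symm
    show arr w.1.2.1 w.2 v.2 ∨ arr w.1.2.1 v.2 w.2
    rw [h4]
    exact h3.symm

theorem arr_irrefl (c : Baire) (k : ℕ × ℕ) : ¬ arr c k k := by
  rintro (⟨h1, h2, h3⟩ | ⟨h1, h2, h3, h4⟩)
  · omega
  · exact h2 h1

theorem gr_irrefl (D : Set Blk) (v : V) : (v, v) ∉ gr D := by
  rintro ⟨h1, h2, h3 | h3⟩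
  · exact arr_irrefl _ _ h3
  · exact arr_irrefl _ _ h3

/-- An enumeration of the neighbours of `(i, 0)`. -/
def nu (c : Baire) (i j : ℕ) : ℕ × ℕ :=
  if j = 0 then (i + 1, 0) else if j ≤ ell c i then (i, j) else (i - 1, 0)

/-- Neighbours of the vertices of the ray. -/
theorem nbr_ray {D : Set Blk} {b : Blk} (hb : b ∈ D) (i : ℕ) :
    {w : V | ((b, ((i, 0) : ℕ × ℕ)), w) ∈ gr D} =
      (fun j : ℕ => ((b, nu b.2.1 i j) : V)) '' (Iic (Nat.pair i (b.2.1 i) + 2)) := by
  have hel : ell b.2.1 i = Nat.pair i (b.2.1 i) + if i = 0 then 2 else 1 := rfl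
  ext ⟨b', k, l⟩
  constructor
  · rintro ⟨h1, h2, h3⟩
    simp only at h1 h2 h3
    subst h1
    rcases h3 with (⟨h4, h5, h6⟩ | ⟨h4, h5, h6, h7⟩) | (⟨h4, h5, h6⟩ | ⟨h4, h5, h6, h7⟩)
    · simp only at h5 h6
      exact ⟨0, by simp, by simp [nu, h5, h6]⟩
    · simp only at h5 h6 h7
      refine ⟨l, ?_, ?_⟩
      · rw [mem_Iic]
        split_ifs at hel <;> omega
      · simp only [nu, h5, if_false, h7, if_true, h6]
    · simp only at h4 h6
      refine ⟨Nat.pair i (b.2.1 i) + 2, by simp, ?_⟩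
      have hi : i ≠ 0 := by omega
      have hk : i - 1 = k := by omega
      rw [if_neg hi] at hel
      have h8 : ¬ Nat.pair i (b.2.1 i) + 2 ≤ ell b.2.1 i := by omega
      simp only [nu, h8, if_false, hk, h4]
      simp
    · exact absurd rfl h5
  · rintro ⟨j, hj, hj'⟩
    simp only at hj'
    rw [← hj']
    by_cases h0 : j = 0
    · simp only [nu, h0, if_true]
      exact ⟨rfl, hb, Or.inl (Or.inl ⟨rfl, rfl, rfl⟩)⟩
    · by_cases h1 : j ≤ ell b.2.1 i
      · simp only [nu, h0, h1, if_false, if_true]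
        exact ⟨rfl, hb, Or.inl (Or.inr ⟨rfl, h0, rfl, h1⟩)⟩
      · simp only [nu, h0, h1, if_false]
        have hi : i ≠ 0 := by
          rintro rfl
          rw [mem_Iic] at hj
          simp only [if_true] at hel
          omega
        refine ⟨rfl, hb, Or.inr (Or.inl ⟨rfl, rfl, ?_⟩)⟩
        show i = i - 1 + 1
        omega

theorem ncard_ray {D : Set Blk} {b : Blk} (hb : b ∈ D) (i : ℕ) :
    {w : V | ((b, ((i, 0) : ℕ × ℕ)), w) ∈ gr D}.ncard = Nat.pair i (b.2.1 i) + 3 := by
  rw [nbr_ray hb i, InjOn.ncard_image]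
  · rw [← Finset.coe_Iic, ncard_coe_finset, Nat.card_Iic]
  · intro j hj j' hj' h
    have hel : ell b.2.1 i = Nat.pair i (b.2.1 i) + if i = 0 then 2 else 1 := rfl
    have h' : nu b.2.1 i j = nu b.2.1 i j' := congrArg (fun v : V => v.2) h
    rw [mem_Iic] at hj hj'
    unfold nu at h'
    split_ifs at h' hel <;> simp only [Prod.mk.injEq] at h' <;> omega

/-- The vertices off the rays have at most one neighbour. -/
theorem nbr_off {D : Set Blk} (b : Blk) (k l : ℕ) (hl : l ≠ 0) :
    {w : V | ((b, ((k, l) : ℕ × ℕ)), w) ∈ gr D} ⊆ {((b, (k, 0)) : V)} := by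
  rintro ⟨b', k', l'⟩ ⟨h1, h2, h3⟩
  simp only at h1 h2 h3
  subst h1
  rcases h3 with (⟨h4, h5, h6⟩ | ⟨h4, h5, h6, h7⟩) | (⟨h4, h5, h6⟩ | ⟨h4, h5, h6, h7⟩)
  · exact absurd h4 hl
  · exact absurd h4 hl
  · exact absurd h5 hl
  · simp only at h4 h6
    rw [mem_singleton_iff, h4, h6]

/-- The graph is locally finite. -/
theorem gr_finite (D : Set Blk) (v : V) : {w : V | (v, w) ∈ gr D}.Finite := by
  by_cases hD : v.1 ∈ D
  · obtain ⟨b, k, l⟩ := v
    by_cases hl : l = 0
    · subst hl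
      rw [nbr_ray hD]
      exact (finite_Iic _).image _
    · exact (finite_singleton _).subset (nbr_off b k l hl)
  · refine finite_empty.subset ?_
    intro w hw
    exact hD hw.2.1

/-- A vertex with at least three neighbours lies on a ray. -/
theorem ray_of_ncard {D : Set Blk} {v : V} (h : 3 ≤ {w : V | (v, w) ∈ gr D}.ncard) :
    v.1 ∈ D ∧ v.2.2 = 0 := by
  have hne : {w : V | (v, w) ∈ gr D}.Nonempty := by
    by_contra hcon
    rw [not_nonempty_iff_eq_empty] at hcon
    rw [hcon, ncard_empty] at h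
    omega
  obtain ⟨w, hw⟩ := hne
  refine ⟨hw.2.1, ?_⟩
  by_contra hl
  obtain ⟨b, k, l⟩ := v
  have h1 := ncard_le_ncard (nbr_off (D := D) b k l hl) (finite_singleton _)
  rw [ncard_singleton] at h1
  omega

/-- An isomorphism preserves the codes of the blocks. -/
theorem block_of_iso {D D' : Set Blk} {f : V → V} (hf : Function.Bijective f)
    (hfe : ∀ v w, (v, w) ∈ gr D ↔ (f v, f w) ∈ gr D') {b : Blk} (hb : b ∈ D) :
    (f (b, (0, 0))).1 ∈ D' ∧ (f (b, (0, 0))).1.2.1 = b.2.1 := by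
  have hN : ∀ v, {w | (f v, w) ∈ gr D'} = f '' {w | (v, w) ∈ gr D} := by
    intro v
    ext w
    obtain ⟨w, rfl⟩ := hf.surjective w
    constructor
    · intro h
      exact ⟨w, (hfe v w).2 h, rfl⟩
    · rintro ⟨w', h, hw'⟩
      rw [mem_ofPred_eq, ← hw']
      exact (hfe v w').1 h
  have hcard : ∀ i : ℕ, {w | (f (b, (i, 0)), w) ∈ gr D'}.ncard =
      Nat.pair i (b.2.1 i) + 3 := by
    intro i
    rw [hN, ncard_image_of_injective _ hf.injective, ncard_ray hb]
  have hray : ∀ i : ℕ, (f (b, (i, 0))).1 ∈ D' ∧ (f (b, (i, 0))).2 = (i, 0) ∧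
      (f (b, (i, 0))).1.2.1 i = b.2.1 i := by
    intro i
    have h1 := hcard i
    obtain ⟨h2, h3⟩ := ray_of_ncard (v := f (b, (i, 0))) (by rw [h1]; omega)
    obtain ⟨⟨b', k, l⟩, hv⟩ : ∃ v, f (b, (i, 0)) = v := ⟨_, rfl⟩
    rw [hv] at h1 h2 h3 ⊢
    simp only at h3 h2
    subst h3
    rw [ncard_ray h2] at h1
    have h4 := Nat.pair_eq_pair.1 (Nat.add_right_cancel h1)
    obtain ⟨h5, h6⟩ := h4
    subst h5
    exact ⟨h2, rfl, h6⟩
  have hsame : ∀ i : ℕ, (f (b, (i, 0))).1 = (f (b, (0, 0))).1 := by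
    intro i
    induction i with
    | zero => rfl
    | succ i ih =>
      have h1 : ((b, (i, 0)), (b, (i + 1, 0))) ∈ gr D := ⟨rfl, hb, Or.inl (Or.inl ⟨rfl, rfl, rfl⟩)⟩
      have h2 := ((hfe _ _).1 h1).1
      rw [← ih]
      exact h2.symm
  refine ⟨(hray 0).1, funext fun i => ?_⟩
  rw [← hsame i]
  exact (hray i).2.2

/-- A graph with a height function such that neighbours have different heights and each vertex has
at most one lower neighbour is acyclic. -/
theorem acyclic_of_height {V : Type} (G : SimpleGraph V) (h : V → ℕ)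
    (h1 : ∀ u v, G.Adj u v → h u ≠ h v)
    (h2 : ∀ v u w, G.Adj v u → G.Adj v w → h u < h v → h w < h v → u = w) : G.IsAcyclic := by
  classical
  intro v c hc
  have hne : c.support.toFinset.Nonempty := ⟨v, by simp⟩
  obtain ⟨m, hm, hmax⟩ := Finset.exists_max_image c.support.toFinset h hne
  have hm' : m ∈ c.support := by simpa using hm
  set c' := c.rotate m hm' with hc'
  have hcyc : c'.IsCycle := hc.rotate hm'
  have hsup : ∀ x, x ∈ c'.support → h x ≤ h m := by
    intro x hx
    refine hmax x ?_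
    rw [List.mem_toFinset]
    exact (SimpleGraph.Walk.mem_support_rotate_iff c m hm').1 hx
  have hnn := hcyc.not_nil
  have a1 : G.Adj m c'.snd := c'.adj_snd hnn
  have a2 : G.Adj m c'.penultimate := (c'.adj_penultimate hnn).symm
  have m1 : c'.snd ∈ c'.support := List.mem_of_mem_tail (c'.snd_mem_tail_support hnn)
  have m2 : c'.penultimate ∈ c'.support :=
    List.mem_of_mem_dropLast (c'.penultimate_mem_dropLast_support hnn)
  have l1 := lt_of_le_of_ne (hsup _ m1) (h1 _ _ a1).symm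
  have l2 := lt_of_le_of_ne (hsup _ m2) (h1 _ _ a2).symm
  exact hcyc.snd_ne_penultimate (h2 m _ _ a1 a2 l1 l2)

/-- The height of a vertex. -/
def hgt (v : V) : ℕ := v.2.1 + if v.2.2 = 0 then 0 else 1

theorem arr_hgt {c : Baire} {b b' : Blk} {k k' : ℕ × ℕ} (h : arr c k k') :
    hgt (b', k') = hgt (b, k) + 1 := by
  unfold hgt
  rcases h with ⟨h1, h2, h3⟩ | ⟨h1, h2, h3, h4⟩
  · simp only [h1, h2, h3, if_true]
  · simp only [h1, h2, h3, if_true, if_false]

theorem arr_parent {c : Baire} {k k' k'' : ℕ × ℕ} (h : arr c k k'') (h' : arr c k' k'') :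
    k = k' := by
  apply Prod.ext
  · rcases h with ⟨h1, h2, h3⟩ | ⟨h1, h2, h3, h4⟩ <;>
      rcases h' with ⟨h1', h2', h3'⟩ | ⟨h1', h2', h3', h4'⟩ <;> omega
  · rcases h with ⟨h1, h2, h3⟩ | ⟨h1, h2, h3, h4⟩ <;>
      rcases h' with ⟨h1', h2', h3'⟩ | ⟨h1', h2', h3', h4'⟩ <;> omega

/-- The graph is acyclic. -/
theorem gr_acyclic {W : Type} (D : Set Blk) (e : W → V) (he : Function.Injective e) :
    (SimpleGraph.fromRel fun x x' : W => (e x, e x') ∈ gr D).IsAcyclic := by
  have hadj : ∀ u v : W, (SimpleGraph.fromRel fun x x' : W => (e x, e x') ∈ gr D).Adj u v →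
      (e u, e v) ∈ gr D := by
    intro u v h
    rw [SimpleGraph.fromRel_adj] at h
    rcases h.2 with h | h
    · exact h
    · exact gr_symm h
  refine acyclic_of_height _ (fun x => hgt (e x)) ?_ ?_
  · intro u v h
    obtain ⟨h1, h2, h3⟩ := hadj u v h
    rcases h3 with h3 | h3
    · have := arr_hgt (b := (e u).1) (b' := (e v).1) h3
      simp only [Prod.mk.eta] at this
      omega
    · have := arr_hgt (b := (e v).1) (b' := (e u).1) h3
      simp only [Prod.mk.eta] at this
      omega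
  · intro v u w hu hw lu lw
    obtain ⟨h1, h2, h3⟩ := hadj v u hu
    obtain ⟨h1', h2', h3'⟩ := hadj v w hw
    have h4 : arr (e v).1.2.1 (e u).2 (e v).2 := by
      rcases h3 with h3 | h3
      · have := arr_hgt (b := (e v).1) (b' := (e u).1) h3
        simp only [Prod.mk.eta] at this
        omega
      · exact h3
    have h4' : arr (e v).1.2.1 (e w).2 (e v).2 := by
      rcases h3' with h3' | h3'
      · have := arr_hgt (b := (e v).1) (b' := (e w).1) h3'
        simp only [Prod.mk.eta] at this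
        omega
      · exact h3'
    apply he
    exact Prod.ext (h1.symm.trans h1') (arr_parent h4 h4')

/-! ### The components -/

/-- The vertices which are not isolated. -/
def Act (D : Set Blk) : Set V := {v | v.1 ∈ D ∧ v.2.2 ≤ ell v.1.2.1 v.2.1}

theorem act_of_gr {D : Set Blk} {v w : V} (h : (v, w) ∈ gr D) : v ∈ Act D := by
  obtain ⟨h1, h2, h3⟩ := h
  refine ⟨h2, ?_⟩
  rcases h3 with (⟨h4, h5, h6⟩ | ⟨h4, h5, h6, h7⟩) | (⟨h4, h5, h6⟩ | ⟨h4, h5, h6, h7⟩)
  · simp only at h4; rw [h4]; exact Nat.zero_le _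
  · simp only at h4; rw [h4]; exact Nat.zero_le _
  · simp only at h5; rw [h5]; exact Nat.zero_le _
  · simp only at h6 h7; rw [h6]; exact h7

open Classical in
/-- The representative of the component of a vertex. -/
noncomputable def rep (D : Set Blk) (v : V) : V := if v ∈ Act D then (v.1, (0, 0)) else v

theorem rep_gr {D : Set Blk} {v w : V} (h : (v, w) ∈ gr D) : rep D v = rep D w := by
  have h1 := act_of_gr h
  have h2 := act_of_gr (gr_symm h)
  have h3 : v.1 = w.1 := h.1
  simp only [rep, h1, h2, if_true, h3]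

theorem gen_root {D : Set Blk} {v : V} (h : v ∈ Act D) :
    Relation.EqvGen (fun v w : V => (v, w) ∈ gr D) (v.1, (0, 0)) v := by
  obtain ⟨b, k, l⟩ := v
  obtain ⟨hb, hl⟩ := h
  simp only at hb hl
  have hray : Relation.EqvGen (fun v w : V => (v, w) ∈ gr D) (b, (0, 0)) (b, (k, 0)) := by
    clear hl
    induction k with
    | zero => exact Relation.EqvGen.refl _
    | succ k ih =>
      refine Relation.EqvGen.trans _ _ _ ih (Relation.EqvGen.rel _ _ ?_)
      exact ⟨rfl, hb, Or.inl (Or.inl ⟨rfl, rfl, rfl⟩)⟩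
  by_cases h0 : l = 0
  · subst h0
    exact hray
  · refine Relation.EqvGen.trans _ _ _ hray (Relation.EqvGen.rel _ _ ?_)
    exact ⟨rfl, hb, Or.inl (Or.inr ⟨rfl, h0, rfl, hl⟩)⟩

theorem rep_iff {D : Set Blk} (v w : V) :
    rep D v = rep D w ↔ Relation.EqvGen (fun v w : V => (v, w) ∈ gr D) v w := by
  constructor
  · intro h
    have hr : ∀ v, Relation.EqvGen (fun v w : V => (v, w) ∈ gr D) (rep D v) v := by
      intro v
      by_cases hv : v ∈ Act D
      · simp only [rep, hv, if_true]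
        exact gen_root hv
      · simp only [rep, hv, if_false]
        exact Relation.EqvGen.refl _
    have h1 := hr w
    rw [← h] at h1
    exact Relation.EqvGen.trans _ _ _ (Relation.EqvGen.symm _ _ (hr v)) h1
  · intro h
    induction h with
    | rel v w h => exact rep_gr h
    | refl v => rfl
    | symm v w _ ih => exact ih.symm
    | trans u v w _ _ ih ih' => exact ih.trans ih'

end Pool.Agent.TH723.BI
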