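import Mathlib
import Pool.Agent.TH723.BI.Graph

/-!
# The relation of Borel isomorphism of Borel graphs
-/

set_option autoImplicit false

open Set MeasureTheory TopologicalSpace

namespace Pool.Agent.TH723.BI

/-- Failure to be a code is witnessed by an infinite descending sequence of subcodes. -/
theorem not_code_iff {Y : Type} {U : ℕ → Set Y} (c : Baire) : (¬ ∃ B, IsCode U c B) ↔
    ∃ f : ℕ → Baire, f 0 = c ∧ ∀ i, f i 0 ≠ 0 ∧ ∃ n, f (i + 1) = sub (f i) n := by
  constructor
  · intro h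
    let St : Type := {c : Baire // ¬ ∃ B, IsCode U c B}
    have step : ∀ c : St, c.1 0 ≠ 0 ∧ ∃ n, ¬ ∃ B, IsCode U (sub c.1 n) B := by
      intro c
      have h0 : c.1 0 ≠ 0 := fun h0 => c.2 ⟨_, IsCode.leaf _ h0⟩
      refine ⟨h0, ?_⟩
      by_contra hcon
      push Not at hcon
      choose B hB using hcon
      exact c.2 ⟨_, IsCode.node _ h0 B hB⟩
    choose h0 nx hnx using step
    let st : ℕ → St := fun n => Nat.rec (⟨c, h⟩ : St) (fun _ t => ⟨sub t.1 (nx t), hnx t⟩) n
    exact ⟨fun i => (st i).1, rfl, fun i => ⟨h0 _, nx (st i), rfl⟩⟩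
  · rintro ⟨f, rfl, hf⟩ ⟨B, hB⟩
    have key : ∀ (c : Baire) (B : Set Y), IsCode U c B → ∀ f : ℕ → Baire, f 0 = c →
        ¬ ∀ i, f i 0 ≠ 0 ∧ ∃ n, f (i + 1) = sub (f i) n := by
      intro c B hB
      induction hB with
      | leaf c h0 =>
        intro f hfc hf
        exact (hf 0).1 (by rw [hfc]; exact h0)
      | node c h0 B hB ih =>
        intro f hfc hf
        obtain ⟨n, hn⟩ := (hf 0).2
        refine ih n (fun i => f (i + 1)) ?_ fun i => hf (i + 1)
        show f (0 + 1) = _
        rw [hn, hfc]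
    exact key _ B hB f rfl hf

theorem analytic_union {α : Type} [TopologicalSpace α] {s t : Set α} (hs : AnalyticSet s)
    (ht : AnalyticSet t) : AnalyticSet (s ∪ t) := by
  rw [union_eq_iUnion]
  exact AnalyticSet.iUnion fun b => by cases b <;> assumption

theorem measurable_sub' {W : Type} [MeasurableSpace W] {f : W → Baire} (hf : Measurable f) (n : ℕ) :
    Measurable fun w => sub (f w) n := (measurable_sub n).comp hf

/-- The space of all the variables. -/
abbrev WW (X : Type) : Type := ((Baire × Baire) × Baire) × (X × X × X × X) ×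
  (ℕ → List ℕ → Bool) × (ℕ → List ℕ → Bool) × (List ℕ → Bool) × (List ℕ → Bool)

section upper

variable {X : Type} [TopologicalSpace X] [PolishSpace X] [MeasurableSpace X] [BorelSpace X]

omit [TopologicalSpace X] [PolishSpace X] [BorelSpace X]

/-- The graph of the Borel function from `X` to `X` coded by `y`, with all evaluations. -/
def GrE (U : ℕ → Set (X × X)) (κ : X ≃ᵐ (ℕ → Bool)) (j : ℕ) (y : Baire) (x x' : X)
    (e : ℕ → List ℕ → Bool) : Prop :=
  ∀ n, EV U (sub y (2 * n + j)) (x, x) (e n) ∧ e n [] = κ x' n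

theorem measurableSet_GrE {U : ℕ → Set (X × X)} (hU : ∀ k, MeasurableSet (U k))
    (κ : X ≃ᵐ (ℕ → Bool)) (j : ℕ) {W : Type} [MeasurableSpace W] {y : W → Baire} {x x' : W → X}
    {e : W → ℕ → List ℕ → Bool} (hy : Measurable y) (hx : Measurable x) (hx' : Measurable x')
    (he : Measurable e) : MeasurableSet {w | GrE U κ j (y w) (x w) (x' w) (e w)} := by
  have : {w | GrE U κ j (y w) (x w) (x' w) (e w)} = ⋂ n : ℕ,
      ({w | EV U (sub (y w) (2 * n + j)) (x w, x w) (e w n)} ∩
        {w | e w n [] = κ (x' w) n}) := by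
    ext w; simp [GrE]
  rw [this]
  refine MeasurableSet.iInter fun n => MeasurableSet.inter ?_ ?_
  · have h1 : Measurable fun w => ((sub (y w) (2 * n + j), (x w, x w), e w n) :
        Baire × (X × X) × (List ℕ → Bool)) :=
      (measurable_sub' hy _).prodMk ((hx.prodMk hx).prodMk ((measurable_pi_apply n).comp he))
    exact h1 (measurableSet_EV hU)
  · exact measurableSet_eq_fun ((measurable_pi_apply []).comp ((measurable_pi_apply n).comp he))
      ((measurable_pi_apply n).comp (κ.measurable.comp hx'))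

theorem measurableSet_EV' {U : ℕ → Set (X × X)} (hU : ∀ k, MeasurableSet (U k))
    {W : Type} [MeasurableSpace W] {c : W → Baire} {x x' : W → X}
    {e : W → List ℕ → Bool} (hc : Measurable c) (hx : Measurable x) (hx' : Measurable x')
    (he : Measurable e) : MeasurableSet {w | EV U (c w) (x w, x' w) (e w)} := by
  have h1 : Measurable fun w => ((c w, (x w, x' w), e w) : Baire × (X × X) × (List ℕ → Bool)) :=
    hc.prodMk ((hx.prodMk hx').prodMk he)
  exact h1 (measurableSet_EV hU)

variable [TopologicalSpace X] [PolishSpace X] [BorelSpace X]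

theorem analytic_proj {M : Set (WW X)} (hM : MeasurableSet M) :
    AnalyticSet (Prod.fst '' M : Set ((Baire × Baire) × Baire)) :=
  hM.analyticSet_image measurable_fst

theorem analytic_notcode {Y : Type} (U : ℕ → Set Y) (g : (Baire × Baire) × Baire → Baire)
    (hg : Measurable g) : AnalyticSet {p | ¬ ∃ B, IsCode U (g p) B} := by
  have h1 : MeasurableSet {q : ((Baire × Baire) × Baire) × (ℕ → Baire) | q.2 0 = g q.1 ∧
      ∀ i, q.2 i 0 ≠ 0 ∧ ∃ n, q.2 (i + 1) = sub (q.2 i) n} := by
    have m : ∀ i, Measurable fun q : ((Baire × Baire) × Baire) × (ℕ → Baire) => q.2 i := fun i =>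
      (measurable_pi_apply i).comp measurable_snd
    refine (measurableSet_eq_fun (m 0) (hg.comp measurable_fst)).inter ?_
    have : {q : ((Baire × Baire) × Baire) × (ℕ → Baire) |
        ∀ i, q.2 i 0 ≠ 0 ∧ ∃ n, q.2 (i + 1) = sub (q.2 i) n} =
        ⋂ i : ℕ, ({q | q.2 i 0 = 0}ᶜ ∩ ⋃ n : ℕ, {q | q.2 (i + 1) = sub (q.2 i) n}) := by
      ext q; simp
    have h2 : MeasurableSet {q : ((Baire × Baire) × Baire) × (ℕ → Baire) |
        ∀ i, q.2 i 0 ≠ 0 ∧ ∃ n, q.2 (i + 1) = sub (q.2 i) n} := by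
      rw [this]
      refine MeasurableSet.iInter fun i => MeasurableSet.inter ?_ (MeasurableSet.iUnion fun n => ?_)
      · exact (((measurable_pi_apply 0).comp (m i)) (measurableSet_singleton 0)).compl
      · exact measurableSet_eq_fun (m (i + 1)) (measurable_sub' (m i) n)
    exact h2
  have h2 := h1.analyticSet_image (f := Prod.fst) measurable_fst
  convert h2 using 1
  ext p
  rw [mem_ofPred_eq, not_code_iff]
  constructor
  · rintro ⟨f, hf0, hf⟩
    exact ⟨(p, f), ⟨hf0, hf⟩, rfl⟩
  · rintro ⟨⟨p', f⟩, ⟨hf0, hf⟩, rfl⟩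
    exact ⟨f, hf0, hf⟩

/-- Borel isomorphism of Borel graphs is `Σ¹₂`. -/
theorem sigma12_isoRel (hX : ¬ Countable X) {U : ℕ → Set (X × X)}
    (hU : (Prod.instMeasurableSpace : MeasurableSpace (X × X)) =
      MeasurableSpace.generateFrom (range U)) : Sigma12 (isoRel U) := by
  classical
  have hUm : ∀ k, MeasurableSet (U k) := fun k => by
    rw [hU]
    exact MeasurableSpace.measurableSet_generateFrom ⟨k, rfl⟩
  have hX2 : ¬ Countable (ℕ → Bool) := by
    intro h
    have := Cardinal.mk_le_aleph0_iff.2 h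
    simp only [Cardinal.mk_pi, Cardinal.mk_fintype, Fintype.card_bool, Nat.cast_ofNat,
      Cardinal.prod_const, Cardinal.lift_id, Cardinal.mk_nat] at this
    exact absurd this (not_le.2 (Cardinal.cantor _))
  let κ : X ≃ᵐ (ℕ → Bool) := PolishSpace.measurableEquivOfNotCountable hX hX2
  -- the variables
  let vc : WW X → Baire := fun w => w.1.1.1
  let vd : WW X → Baire := fun w => w.1.1.2
  let vy : WW X → Baire := fun w => w.1.2
  let x1 : WW X → X := fun w => w.2.1.1
  let x2 : WW X → X := fun w => w.2.1.2.1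
  let x3 : WW X → X := fun w => w.2.1.2.2.1
  let x4 : WW X → X := fun w => w.2.1.2.2.2
  let e1 : WW X → ℕ → List ℕ → Bool := fun w => w.2.2.1
  let e2 : WW X → ℕ → List ℕ → Bool := fun w => w.2.2.2.1
  let e3 : WW X → List ℕ → Bool := fun w => w.2.2.2.2.1
  let e4 : WW X → List ℕ → Bool := fun w => w.2.2.2.2.2
  have mvc : Measurable vc := measurable_fst.comp (measurable_fst.comp measurable_fst)
  have mvd : Measurable vd := measurable_snd.comp (measurable_fst.comp measurable_fst)
  have mvy : Measurable vy := measurable_snd.comp measurable_fst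
  have m2 : Measurable fun w : WW X => w.2 := measurable_snd
  have mx1 : Measurable x1 := measurable_fst.comp (measurable_fst.comp m2)
  have mx2 : Measurable x2 :=
    measurable_fst.comp (measurable_snd.comp (measurable_fst.comp m2))
  have mx3 : Measurable x3 :=
    measurable_fst.comp (measurable_snd.comp (measurable_snd.comp (measurable_fst.comp m2)))
  have mx4 : Measurable x4 :=
    measurable_snd.comp (measurable_snd.comp (measurable_snd.comp (measurable_fst.comp m2)))
  have me1 : Measurable e1 := measurable_fst.comp (measurable_snd.comp m2)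
  have me2 : Measurable e2 :=
    measurable_fst.comp (measurable_snd.comp (measurable_snd.comp m2))
  have me3 : Measurable e3 :=
    measurable_fst.comp (measurable_snd.comp (measurable_snd.comp (measurable_snd.comp m2)))
  have me4 : Measurable e4 :=
    measurable_snd.comp (measurable_snd.comp (measurable_snd.comp (measurable_snd.comp m2)))
  let V1 : Set (WW X) := {w | GrE U κ 0 (vy w) (x1 w) (x2 w) (e1 w)} ∩
    {w | GrE U κ 1 (vy w) (x2 w) (x3 w) (e2 w)} ∩ {w | x3 w = x1 w}ᶜ
  let V2 : Set (WW X) := {w | GrE U κ 1 (vy w) (x1 w) (x2 w) (e1 w)} ∩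
    {w | GrE U κ 0 (vy w) (x2 w) (x3 w) (e2 w)} ∩ {w | x3 w = x1 w}ᶜ
  let V3 : Set (WW X) := {w | GrE U κ 0 (vy w) (x1 w) (x3 w) (e1 w)} ∩
    {w | GrE U κ 0 (vy w) (x2 w) (x4 w) (e2 w)} ∩ {w | EV U (vc w) (x1 w, x2 w) (e3 w)} ∩
    {w | EV U (vd w) (x3 w, x4 w) (e4 w)} ∩ {w | e3 w [] = e4 w []}ᶜ
  let V4 : Set (WW X) := {w | EV U (vc w) (x1 w, x1 w) (e3 w)} ∩ {w | e3 w [] = true}
  let V5 : Set (WW X) := {w | EV U (vc w) (x1 w, x2 w) (e3 w)} ∩
    {w | EV U (vc w) (x2 w, x1 w) (e4 w)} ∩ {w | e3 w [] = e4 w []}ᶜ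
  have mV1 : MeasurableSet V1 := ((measurableSet_GrE hUm κ 0 mvy mx1 mx2 me1).inter
    (measurableSet_GrE hUm κ 1 mvy mx2 mx3 me2)).inter (measurableSet_eq_fun mx3 mx1).compl
  have mV2 : MeasurableSet V2 := ((measurableSet_GrE hUm κ 1 mvy mx1 mx2 me1).inter
    (measurableSet_GrE hUm κ 0 mvy mx2 mx3 me2)).inter (measurableSet_eq_fun mx3 mx1).compl
  have mne : MeasurableSet {w : WW X | e3 w [] = e4 w []}ᶜ :=
    (measurableSet_eq_fun ((measurable_pi_apply []).comp me3)
      ((measurable_pi_apply []).comp me4)).compl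
  have mV3 : MeasurableSet V3 := ((((measurableSet_GrE hUm κ 0 mvy mx1 mx3 me1).inter
    (measurableSet_GrE hUm κ 0 mvy mx2 mx4 me2)).inter
    (measurableSet_EV' hUm mvc mx1 mx2 me3)).inter
    (measurableSet_EV' hUm mvd mx3 mx4 me4)).inter mne
  have mV4 : MeasurableSet V4 := (measurableSet_EV' hUm mvc mx1 mx1 me3).inter
    (measurableSet_eq_fun ((measurable_pi_apply []).comp me3) measurable_const)
  have mV5 : MeasurableSet V5 := ((measurableSet_EV' hUm mvc mx1 mx2 me3).inter
    (measurableSet_EV' hUm mvc mx2 mx1 me4)).inter mne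
  let NC : Set ((Baire × Baire) × Baire) := {p | ¬ ∃ B, IsCode U p.1.1 B} ∪
    {p | ¬ ∃ B, IsCode U p.1.2 B} ∪ ⋃ n, {p | ¬ ∃ B, IsCode U (sub p.2 n) B}
  have aNC : AnalyticSet NC := by
    refine analytic_union (analytic_union ?_ ?_) (AnalyticSet.iUnion fun n => ?_)
    · exact analytic_notcode U _ (measurable_fst.comp measurable_fst)
    · exact analytic_notcode U _ (measurable_snd.comp measurable_fst)
    · exact analytic_notcode U _ (measurable_sub' measurable_snd n)
  refine ⟨(NC ∪ (Prod.fst '' V1 ∪ Prod.fst '' V2 ∪ Prod.fst '' V3 ∪ Prod.fst '' V4 ∪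
    Prod.fst '' V5))ᶜ, ?_, ?_⟩
  · rw [compl_compl]
    exact analytic_union aNC (analytic_union (analytic_union (analytic_union (analytic_union
      (analytic_proj mV1) (analytic_proj mV2)) (analytic_proj mV3)) (analytic_proj mV4))
      (analytic_proj mV5))
  rintro ⟨c, d⟩
  constructor
  · rintro ⟨G, H, hG, hH, ⟨hGm, hGi, hGs⟩, hHB, f, hf, hfb, hfe⟩
    -- the codes of f and its inverse
    let fe : X ≃ X := Equiv.ofBijective f hfb
    have hg : Measurable fe.symm := by
      have h1 := (hf.measurableEmbedding hfb.injective)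
      intro s hs
      have h2 : fe.symm ⁻¹' s = f '' s := by
        rw [← Equiv.image_eq_preimage_symm]
        rfl
      rw [h2]
      exact h1.measurableSet_image.2 hs
    have hcode : ∀ k : ℕ, ∃ q : Baire, IsCode U q
        {p : X × X | if k % 2 = 0 then κ (f p.1) (k / 2) = true else κ (fe.symm p.1) (k / 2) = true} := by
      intro k
      apply exists_code' hU
      by_cases hk : k % 2 = 0
      · simp only [hk, if_true]
        exact measurableSet_eq_fun ((measurable_pi_apply _).comp (κ.measurable.comp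
          (hf.comp measurable_fst))) measurable_const
      · simp only [hk, if_false]
        exact measurableSet_eq_fun ((measurable_pi_apply _).comp (κ.measurable.comp
          (hg.comp measurable_fst))) measurable_const
    choose q hq using hcode
    have hgr0 : ∀ x x' e, GrE U κ 0 (mk q) x x' e → x' = f x := by
      intro x x' e he
      apply κ.injective
      funext n
      have h1 := he n
      rw [sub_mk] at h1
      have h2 := EV.root (hq (2 * n + 0)) h1.1
      have h3 : (2 * n + 0) % 2 = 0 := by omega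
      have h4 : (2 * n + 0) / 2 = n := by omega
      simp only [h3, h4, if_true, mem_ofPred_eq] at h2
      rw [← h1.2, Bool.eq_iff_iff]
      exact h2
    have hgr1 : ∀ x x' e, GrE U κ 1 (mk q) x x' e → x' = fe.symm x := by
      intro x x' e he
      apply κ.injective
      funext n
      have h1 := he n
      rw [sub_mk] at h1
      have h2 := EV.root (hq (2 * n + 1)) h1.1
      have h3 : ¬ (2 * n + 1) % 2 = 0 := by omega
      have h4 : (2 * n + 1) / 2 = n := by omega
      simp only [h3, h4, if_false, mem_ofPred_eq] at h2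
      rw [← h1.2, Bool.eq_iff_iff]
      exact h2
    refine ⟨mk q, ?_⟩
    rintro (((h | h) | h) | ((((h | h) | h) | h) | h))
    · exact h ⟨G, hG⟩
    · exact h ⟨H, hH⟩
    · obtain ⟨n, hn⟩ := mem_iUnion.1 h
      apply hn
      rw [show sub ((((c, d), mk q) : (Baire × Baire) × Baire)).2 n = q n from sub_mk q n]
      exact ⟨_, hq n⟩
    · obtain ⟨⟨p, ⟨y1, y2, y3, y4⟩, f1, f2, f3, f4⟩, ⟨⟨h1, h2⟩, h3⟩, rfl⟩ := h
      have h4 := hgr0 _ _ _ h1
      have h5 := hgr1 _ _ _ h2
      apply h3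
      show y3 = y1
      change y2 = f y1 at h4
      change y3 = fe.symm y2 at h5
      rw [h5, h4]
      exact fe.symm_apply_apply y1
    · obtain ⟨⟨p, ⟨y1, y2, y3, y4⟩, f1, f2, f3, f4⟩, ⟨⟨h1, h2⟩, h3⟩, rfl⟩ := h
      have h4 := hgr1 _ _ _ h1
      have h5 := hgr0 _ _ _ h2
      apply h3
      show y3 = y1
      change y2 = fe.symm y1 at h4
      change y3 = f y2 at h5
      rw [h5, h4]
      exact fe.apply_symm_apply y1
    · obtain ⟨⟨p, ⟨y1, y2, y3, y4⟩, f1, f2, f3, f4⟩, ⟨⟨⟨⟨h1, h2⟩, h3⟩, h4⟩, h5⟩, hp⟩ := h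
      change p = ((c, d), mk q) at hp
      subst hp
      have h6 := hgr0 _ _ _ h1
      have h7 := hgr0 _ _ _ h2
      change y3 = f y1 at h6
      change y4 = f y2 at h7
      have h8 := EV.root hG h3
      have h9 := EV.root hH h4
      apply h5
      show f3 [] = f4 []
      change f3 [] = true ↔ (y1, y2) ∈ G at h8
      change f4 [] = true ↔ (y3, y4) ∈ H at h9
      rw [Bool.eq_iff_iff, h8, h9, h6, h7]
      exact hfe y1 y2
    · obtain ⟨⟨p, ⟨y1, y2, y3, y4⟩, f1, f2, f3, f4⟩, ⟨h1, h2⟩, hp⟩ := h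
      change p = ((c, d), mk q) at hp
      subst hp
      have h8 := EV.root hG h1
      change f3 [] = true ↔ (y1, y1) ∈ G at h8
      change f3 [] = true at h2
      exact hGi y1 (h8.1 h2)
    · obtain ⟨⟨p, ⟨y1, y2, y3, y4⟩, f1, f2, f3, f4⟩, ⟨⟨h1, h2⟩, h3⟩, hp⟩ := h
      change p = ((c, d), mk q) at hp
      subst hp
      have h8 := EV.root hG h1
      have h9 := EV.root hG h2
      change f3 [] = true ↔ (y1, y2) ∈ G at h8
      change f4 [] = true ↔ (y2, y1) ∈ G at h9
      apply h3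
      show f3 [] = f4 []
      rw [Bool.eq_iff_iff, h8, h9]
      exact ⟨hGs _ _, hGs _ _⟩
  · rintro ⟨y, hy⟩
    rw [mem_compl_iff] at hy
    have hc : ∃ B, IsCode U c B := by
      by_contra h
      exact hy (Or.inl (Or.inl (Or.inl h)))
    have hd : ∃ B, IsCode U d B := by
      by_contra h
      exact hy (Or.inl (Or.inl (Or.inr h)))
    have hyc : ((c, d), y) ∉ ⋃ n, {p : (Baire × Baire) × Baire | ¬ ∃ B, IsCode U (sub p.2 n) B} :=
      fun h => hy (Or.inl (Or.inr h))
    have h1 : ((c, d), y) ∉ Prod.fst '' V1 := fun h =>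
      hy (Or.inr (Or.inl (Or.inl (Or.inl (Or.inl h)))))
    have h2 : ((c, d), y) ∉ Prod.fst '' V2 := fun h =>
      hy (Or.inr (Or.inl (Or.inl (Or.inl (Or.inr h)))))
    have h3 : ((c, d), y) ∉ Prod.fst '' V3 := fun h =>
      hy (Or.inr (Or.inl (Or.inl (Or.inr h))))
    have h4 : ((c, d), y) ∉ Prod.fst '' V4 := fun h =>
      hy (Or.inr (Or.inl (Or.inr h)))
    have h5 : ((c, d), y) ∉ Prod.fst '' V5 := fun h =>
      hy (Or.inr (Or.inr h))
    clear hy
    obtain ⟨G, hG⟩ := hc
    obtain ⟨H, hH⟩ := hd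
    have hyc' : ∀ n, ∃ B, IsCode U (sub y n) B := by
      intro n
      by_contra hn
      exact hyc (mem_iUnion.2 ⟨n, hn⟩)
    choose B hB using hyc'
    have hBm : ∀ n, MeasurableSet (B n) := fun n => (hB n).measurableSet hUm
    let g : ℕ → X → X := fun j x => κ.symm fun n => decide ((x, x) ∈ B (2 * n + j))
    have hgm : ∀ j, Measurable (g j) := by
      intro j
      refine κ.symm.measurable.comp (measurable_pi_iff.2 fun n => measurable_to_bool ?_)
      have : (fun x : X => decide ((x, x) ∈ B (2 * n + j))) ⁻¹' {true} =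
          (fun x : X => (x, x)) ⁻¹' (B (2 * n + j)) := by
        ext x; simp
      rw [this]
      exact (measurable_id.prodMk measurable_id) (hBm _)
    have hgr : ∀ j x, ∃ e, GrE U κ j y x (g j x) e := by
      intro j x
      have h6 : ∀ n, ∃ e, EV U (sub y (2 * n + j)) (x, x) e := fun n => exists_EV (hB _) _
      choose e he using h6
      refine ⟨e, fun n => ⟨he n, ?_⟩⟩
      have h7 := EV.root (hB _) (he n)
      simp only [g, MeasurableEquiv.apply_symm_apply]
      rw [Bool.eq_iff_iff, h7]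
      simp
    have hgg : ∀ x, g 1 (g 0 x) = x := by
      intro x
      by_contra hne
      obtain ⟨f1, hf1⟩ := hgr 0 x
      obtain ⟨f2, hf2⟩ := hgr 1 (g 0 x)
      exact h1 ⟨(((c, d), y), (x, g 0 x, g 1 (g 0 x), x), f1, f2, fun _ => false, fun _ => false),
        ⟨⟨hf1, hf2⟩, hne⟩, rfl⟩
    have hgg' : ∀ x, g 0 (g 1 x) = x := by
      intro x
      by_contra hne
      obtain ⟨f1, hf1⟩ := hgr 1 x
      obtain ⟨f2, hf2⟩ := hgr 0 (g 1 x)
      exact h2 ⟨(((c, d), y), (x, g 1 x, g 0 (g 1 x), x), f1, f2, fun _ => false, fun _ => false),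
        ⟨⟨hf1, hf2⟩, hne⟩, rfl⟩
    have hbij : Function.Bijective (g 0) :=
      ⟨fun x x' h => by rw [← hgg x, ← hgg x', h], fun x => ⟨g 1 x, hgg' x⟩⟩
    have hiso : ∀ x x', (x, x') ∈ G ↔ (g 0 x, g 0 x') ∈ H := by
      intro x x'
      obtain ⟨f1, hf1⟩ := hgr 0 x
      obtain ⟨f2, hf2⟩ := hgr 0 x'
      obtain ⟨f3, hf3⟩ := exists_EV hG (x, x')
      obtain ⟨f4, hf4⟩ := exists_EV hH (g 0 x, g 0 x')
      rw [← EV.root hG hf3, ← EV.root hH hf4, ← Bool.eq_iff_iff]
      by_contra hne
      exact h3 ⟨(((c, d), y), (x, x', g 0 x, g 0 x'), f1, f2, f3, f4),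
        ⟨⟨⟨⟨hf1, hf2⟩, hf3⟩, hf4⟩, hne⟩, rfl⟩
    have hirr : ∀ x, (x, x) ∉ G := by
      intro x hx
      obtain ⟨f3, hf3⟩ := exists_EV hG (x, x)
      exact h4 ⟨(((c, d), y), (x, x, x, x), fun _ _ => false, fun _ _ => false, f3,
        fun _ => false), ⟨hf3, (EV.root hG hf3).2 hx⟩, rfl⟩
    have hsym : ∀ x x', (x, x') ∈ G → (x', x) ∈ G := by
      intro x x' hx
      obtain ⟨f3, hf3⟩ := exists_EV hG (x, x')
      obtain ⟨f4, hf4⟩ := exists_EV hG (x', x)
      by_contra hx'
      refine h5 ⟨(((c, d), y), (x, x', x, x), fun _ _ => false, fun _ _ => false, f3, f4),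
        ⟨⟨hf3, hf4⟩, ?_⟩, rfl⟩
      intro heq
      have heq' : f3 [] = f4 [] := heq
      rw [Bool.eq_iff_iff, EV.root hG hf3, EV.root hG hf4] at heq'
      exact hx' (heq'.1 hx)
    refine ⟨G, H, hG, hH, ⟨hG.measurableSet hUm, hirr, hsym⟩, ⟨hH.measurableSet hUm, ?_, ?_⟩,
      g 0, hgm 0, hbij, hiso⟩
    · intro x hx
      obtain ⟨x, rfl⟩ := hbij.surjective x
      exact hirr x ((hiso x x).2 hx)
    · intro x x' hx
      obtain ⟨x, rfl⟩ := hbij.surjective x
      obtain ⟨x', rfl⟩ := hbij.surjective x'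
      exact (hiso x' x).1 (hsym _ _ ((hiso x x').2 hx))

end upper

end Pool.Agent.TH723.BI
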