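import Mathlib
import Pool.Agent.TH723.BI.Upper

/-!
# Borel isomorphism of Borel graphs is `Σ¹₂`-hard
-/

set_option autoImplicit false

open Set MeasureTheory TopologicalSpace

namespace Pool.Agent.TH723.BI

theorem not_countable_cantor : ¬ Countable (ℕ → Bool) := by
  intro h
  have := Cardinal.mk_le_aleph0_iff.2 h
  simp only [Cardinal.mk_pi, Cardinal.mk_fintype, Fintype.card_bool, Nat.cast_ofNat,
    Cardinal.prod_const, Cardinal.lift_id, Cardinal.mk_nat] at this
  exact absurd this (not_le.2 (Cardinal.cantor _))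

/-- The default witness. -/
def z0 : Z := (fun _ => 0, false, fun _ => false, fun _ => 0)

theorem not_countable_V : ¬ Countable V := by
  intro h
  apply not_countable_cantor
  let j : (ℕ → Bool) → V := fun s => ((true, (fun n => (s n).toNat), z0, 0), (0, 0))
  have hj : Function.Injective j := by
    intro s s' h
    have h1 := congrArg (fun v : V => v.1.2.1) h
    funext n
    have h2 := congrFun h1 n
    have h3 : (s n).toNat = (s' n).toNat := h2
    cases hs : s n <;> cases hs' : s' n <;> rw [hs, hs'] at h3 <;> simp at h3 ⊢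
  exact hj.countable

variable {α : Type}

/-- The blocks of the first graph. -/
def GD (T : α → Baire → Set (List ℕ)) (a : α) : Set Blk :=
  {b | b.1 = false ∧ (a, b.2.1, b.2.2.1) ∈ F T}

/-- The blocks of the second graph: one additional block for every code. -/
def HD (T : α → Baire → Set (List ℕ)) (a : α) : Set Blk :=
  GD T a ∪ {b | b.1 = true ∧ b.2.2.1 = z0 ∧ b.2.2.2 = 0}

section swindle

open Classical in
/-- The shift of the blocks given by a uniformization. -/
noncomputable def pf (u : Baire → Z) (b : Blk) : Blk :=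
  if b.1 = true then
    (if b.2.2.1 = z0 then
      (if b.2.2.2 = 0 then (false, b.2.1, u b.2.1, 0) else (true, b.2.1, z0, b.2.2.2 - 1))
      else b)
    else (if b.2.2.1 = u b.2.1 then (false, b.2.1, b.2.2.1, b.2.2.2 + 1) else b)

open Classical in
/-- The inverse of `pf`. -/
noncomputable def pg (u : Baire → Z) (b : Blk) : Blk :=
  if b.1 = true then
    (if b.2.2.1 = z0 then (true, b.2.1, z0, b.2.2.2 + 1) else b)
    else (if b.2.2.1 = u b.2.1 then
      (if b.2.2.2 = 0 then (true, b.2.1, z0, 0) else (false, b.2.1, b.2.2.1, b.2.2.2 - 1))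
      else b)

theorem pg_pf (u : Baire → Z) (b : Blk) : pg u (pf u b) = b := by
  obtain ⟨s, c, z, n⟩ := b
  cases s with
  | true =>
    by_cases hz : z = z0
    · subst hz
      cases n with
      | zero => simp [pf, pg]
      | succ n => simp [pf, pg]
    · simp [pf, pg, hz]
  | false =>
    by_cases hz : z = u c
    · simp [pf, pg, hz]
    · simp [pf, pg, hz]

theorem pf_pg (u : Baire → Z) (b : Blk) : pf u (pg u b) = b := by
  obtain ⟨s, c, z, n⟩ := b
  cases s with
  | true =>
    by_cases hz : z = z0
    · simp [pf, pg, hz]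
    · simp [pf, pg, hz]
  | false =>
    by_cases hz : z = u c
    · subst hz
      cases n with
      | zero => simp [pf, pg]
      | succ n => simp [pf, pg]
    · simp [pf, pg, hz]

theorem pf_code (u : Baire → Z) (b : Blk) : (pf u b).2.1 = b.2.1 := by
  unfold pf
  split_ifs <;> rfl

theorem pf_mem {T : α → Baire → Set (List ℕ)} {a : α} {u : Baire → Z}
    (hu : ∀ c, (a, c, u c) ∈ F T) (b : Blk) : b ∈ HD T a ↔ pf u b ∈ GD T a := by
  obtain ⟨s, c, z, n⟩ := b
  cases s with
  | true =>
    by_cases hz : z = z0
    · subst hz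
      cases n with
      | zero => simp [HD, GD, pf, hu c]
      | succ n => simp [HD, GD, pf]
    · simp [HD, GD, pf, hz]
  | false =>
    by_cases hz : z = u c
    · simp [HD, GD, pf, hz]
    · simp [HD, GD, pf, hz]

theorem measurable_pf {u : Baire → Z} (hu : Measurable u) : Measurable (pf u) := by
  classical
  have m1 : Measurable fun b : Blk => b.1 := measurable_fst
  have m2 : Measurable fun b : Blk => b.2.1 := measurable_fst.comp measurable_snd
  have m3 : Measurable fun b : Blk => b.2.2.1 :=
    measurable_fst.comp (measurable_snd.comp measurable_snd)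
  have m4 : Measurable fun b : Blk => b.2.2.2 :=
    measurable_snd.comp (measurable_snd.comp measurable_snd)
  have m5 : Measurable fun b : Blk => u b.2.1 := hu.comp m2
  have s1 : MeasurableSet {b : Blk | b.1 = true} := m1 (measurableSet_singleton true)
  have s2 : MeasurableSet {b : Blk | b.2.2.1 = z0} := measurableSet_eq_fun m3 measurable_const
  have s3 : MeasurableSet {b : Blk | b.2.2.2 = 0} := m4 (measurableSet_singleton 0)
  have s4 : MeasurableSet {b : Blk | b.2.2.1 = u b.2.1} := measurableSet_eq_fun m3 m5
  refine Measurable.ite s1 (Measurable.ite s2 (Measurable.ite s3 ?_ ?_) measurable_id)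
    (Measurable.ite s4 ?_ measurable_id)
  · exact measurable_const.prodMk (m2.prodMk (m5.prodMk measurable_const))
  · exact measurable_const.prodMk (m2.prodMk (measurable_const.prodMk
      ((measurable_of_countable (fun n : ℕ => n - 1)).comp m4)))
  · exact measurable_const.prodMk (m2.prodMk (m3.prodMk
      ((measurable_of_countable (fun n : ℕ => n + 1)).comp m4)))

/-- A permutation of the blocks respecting the codes induces an isomorphism. -/
theorem gr_iff {D D' : Set Blk} {π : Blk → Blk} (hπ : Function.Injective π)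
    (hc : ∀ b, (π b).2.1 = b.2.1) (hD : ∀ b, b ∈ D ↔ π b ∈ D') (v w : V) :
    (v, w) ∈ gr D ↔ ((π v.1, v.2), (π w.1, w.2)) ∈ gr D' := by
  constructor
  · rintro ⟨h1, h2, h3⟩
    refine ⟨congrArg π h1, (hD _).1 h2, ?_⟩
    show arr (π v.1).2.1 v.2 w.2 ∨ arr (π v.1).2.1 w.2 v.2
    rw [hc]
    exact h3
  · rintro ⟨h1, h2, h3⟩
    refine ⟨hπ h1, (hD _).2 h2, ?_⟩
    change arr (π v.1).2.1 v.2 w.2 ∨ arr (π v.1).2.1 w.2 v.2 at h3
    rw [hc] at h3
    exact h3

end swindle

theorem measurable_ell (i : ℕ) : Measurable fun c : Baire => ell c i :=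
  (measurable_of_countable (fun n : ℕ => Nat.pair i n + if i = 0 then 2 else 1)).comp
    (measurable_pi_apply i)

theorem measurableSet_arr : MeasurableSet {q : Baire × (ℕ × ℕ) × (ℕ × ℕ) | arr q.1 q.2.1 q.2.2} := by
  have : {q : Baire × (ℕ × ℕ) × (ℕ × ℕ) | arr q.1 q.2.1 q.2.2} =
      ⋃ k : (ℕ × ℕ) × (ℕ × ℕ), ({c | arr c k.1 k.2} ×ˢ {k}) := by
    ext ⟨c, k⟩
    simp
  rw [this]
  refine MeasurableSet.iUnion fun k => MeasurableSet.prod ?_ (measurableSet_singleton k)
  have h1 : MeasurableSet {c : Baire | k.2.2 ≤ ell c k.1.1} :=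
    (measurable_ell k.1.1) (MeasurableSet.of_discrete (s := {n : ℕ | k.2.2 ≤ n}))
  have h3 : ∀ p : Prop, MeasurableSet {_c : Baire | p} := fun p => MeasurableSet.const p
  exact (((h3 _).inter ((h3 _).inter (h3 _))).union
    ((h3 _).inter ((h3 _).inter ((h3 _).inter h1))))

theorem measurableSet_Act {D : Set Blk} (hD : MeasurableSet D) : MeasurableSet (Act D) := by
  have h1 : MeasurableSet {v : V | v.2.2 ≤ ell v.1.2.1 v.2.1} := by
    have : {v : V | v.2.2 ≤ ell v.1.2.1 v.2.1} =
        ⋃ k : ℕ × ℕ, ({b : Blk | k.2 ≤ ell b.2.1 k.1} ×ˢ {k}) := by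
      ext ⟨b, k⟩
      simp
    rw [this]
    refine MeasurableSet.iUnion fun k => MeasurableSet.prod ?_ (measurableSet_singleton k)
    exact ((measurable_ell k.1).comp (measurable_fst.comp measurable_snd))
      (MeasurableSet.of_discrete (s := {n : ℕ | k.2 ≤ n}))
  exact (measurable_fst hD).inter h1

theorem measurable_rep {D : Set Blk} (hD : MeasurableSet D) : Measurable (rep D) := by
  classical
  exact Measurable.ite (measurableSet_Act hD) (measurable_fst.prodMk measurable_const)
    measurable_id

variable [MeasurableSpace α]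

theorem measurableSet_grD {D : α → Set Blk} (hD : MeasurableSet {p : α × Blk | p.2 ∈ D p.1}) :
    MeasurableSet {p : α × (V × V) | p.2 ∈ gr (D p.1)} := by
  have m1 : Measurable fun p : α × (V × V) => p.2.1.1 :=
    measurable_fst.comp (measurable_fst.comp measurable_snd)
  have m2 : Measurable fun p : α × (V × V) => p.2.2.1 :=
    measurable_fst.comp (measurable_snd.comp measurable_snd)
  have m3 : Measurable fun p : α × (V × V) => p.2.1.2 :=
    measurable_snd.comp (measurable_fst.comp measurable_snd)
  have m4 : Measurable fun p : α × (V × V) => p.2.2.2 :=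
    measurable_snd.comp (measurable_snd.comp measurable_snd)
  have m5 : Measurable fun p : α × (V × V) => p.2.1.1.2.1 :=
    measurable_fst.comp (measurable_snd.comp m1)
  have s1 : MeasurableSet {p : α × (V × V) | p.2.1.1 = p.2.2.1} := measurableSet_eq_fun m1 m2
  have s2 : MeasurableSet {p : α × (V × V) | p.2.1.1 ∈ D p.1} := (measurable_fst.prodMk m1) hD
  have s3 : MeasurableSet {p : α × (V × V) | arr p.2.1.1.2.1 p.2.1.2 p.2.2.2} :=
    (m5.prodMk (m3.prodMk m4)) measurableSet_arr
  have s4 : MeasurableSet {p : α × (V × V) | arr p.2.1.1.2.1 p.2.2.2 p.2.1.2} :=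
    (m5.prodMk (m4.prodMk m3)) measurableSet_arr
  exact s1.inter (s2.inter (s3.union s4))

theorem measurableSet_GD {T : α → Baire → Set (List ℕ)}
    (hT : ∀ t, MeasurableSet {p : α × Baire | t ∈ T p.1 p.2}) :
    MeasurableSet {p : α × Blk | p.2 ∈ GD T p.1} := by
  have s1 : MeasurableSet {p : α × Blk | p.2.1 = false} :=
    (measurable_fst.comp measurable_snd) (measurableSet_singleton false)
  have m1 : Measurable fun p : α × Blk => ((p.1, p.2.2.1, p.2.2.2.1) : α × Baire × Z) := by
    fun_prop
  exact s1.inter (m1 (measurableSet_F hT))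

theorem measurableSet_HD {T : α → Baire → Set (List ℕ)}
    (hT : ∀ t, MeasurableSet {p : α × Baire | t ∈ T p.1 p.2}) :
    MeasurableSet {p : α × Blk | p.2 ∈ HD T p.1} := by
  have s1 : MeasurableSet {p : α × Blk | p.2.1 = true} :=
    (measurable_fst.comp measurable_snd) (measurableSet_singleton true)
  have m1 : Measurable fun p : α × Blk => p.2.2.2.1 := by fun_prop
  have m2 : Measurable fun p : α × Blk => p.2.2.2.2 := by fun_prop
  have s2 : MeasurableSet {p : α × Blk | p.2.2.2.1 = z0} := measurableSet_eq_fun m1 measurable_const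
  have s3 : MeasurableSet {p : α × Blk | p.2.2.2.2 = 0} := m2 (measurableSet_singleton 0)
  exact (measurableSet_GD hT).union (s1.inter (s2.inter s3))

section lower

variable {X : Type} [MeasurableSpace X] [StandardBorelSpace X]

/-- The graph transported to `X`. -/
def grX (e : V ≃ᵐ X) (D : Set Blk) : Set (X × X) := {p | (e.symm p.1, e.symm p.2) ∈ gr D}

omit [StandardBorelSpace X] in
theorem borelGraph_grX (e : V ≃ᵐ X) {D : Set Blk} (hD : MeasurableSet D) :
    BorelGraph (grX e D) := by
  refine ⟨?_, fun x hx => gr_irrefl _ _ hx, fun x x' h => gr_symm h⟩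
  have h1 := measurableSet_grD (α := Unit) (D := fun _ => D) (measurable_snd hD)
  have h2 : Measurable fun p : X × X => (((), (e.symm p.1, e.symm p.2)) : Unit × (V × V)) :=
    measurable_const.prodMk ((e.symm.measurable.comp measurable_fst).prodMk
      (e.symm.measurable.comp measurable_snd))
  exact h2 h1

omit [StandardBorelSpace X] in
theorem tameForest_grX (e : V ≃ᵐ X) {D : Set Blk} (hD : MeasurableSet D) :
    TameForest (grX e D) := by
  refine ⟨fun x => ?_, gr_acyclic D e.symm e.symm.injective, ?_⟩
  · have h1 := (gr_finite D (e.symm x)).preimage (f := e.symm) e.symm.injective.injOn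
    exact h1
  · refine ⟨fun x => e (rep D (e.symm x)),
      e.measurable.comp ((measurable_rep hD).comp e.symm.measurable), fun x x' => ?_⟩
    rw [e.injective.eq_iff, rep_iff]
    constructor
    · intro h
      have key : ∀ v w : V, Relation.EqvGen (fun v w : V => (v, w) ∈ gr D) v w →
          Relation.EqvGen (fun x x' : X => (x, x') ∈ grX e D) (e v) (e w) := by
        intro v w h
        induction h with
        | rel v w h =>
          refine Relation.EqvGen.rel _ _ ?_
          show (e.symm (e v), e.symm (e w)) ∈ gr D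
          rw [e.symm_apply_apply, e.symm_apply_apply]
          exact h
        | refl v => exact Relation.EqvGen.refl _
        | symm v w _ ih => exact Relation.EqvGen.symm _ _ ih
        | trans u v w _ _ ih ih' => exact Relation.EqvGen.trans _ _ _ ih ih'
      have h1 := key _ _ h
      rw [e.apply_symm_apply, e.apply_symm_apply] at h1
      exact h1
    · intro h
      induction h with
      | rel v w h => exact Relation.EqvGen.rel _ _ h
      | refl v => exact Relation.EqvGen.refl _
      | symm v w _ ih => exact Relation.EqvGen.symm _ _ ih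
      | trans u v w _ _ ih ih' => exact Relation.EqvGen.trans _ _ _ ih ih'

omit [StandardBorelSpace X] in
theorem exists_codes {U : ℕ → Set (X × X)}
    (hU : (Prod.instMeasurableSpace : MeasurableSpace (X × X)) =
      MeasurableSpace.generateFrom (range U)) (e : V ≃ᵐ X) {D : α → Set Blk}
    (hD : MeasurableSet {p : α × Blk | p.2 ∈ D p.1}) :
    ∃ f : α → Baire, Measurable f ∧ ∀ a, IsCode U (f a) (grX e (D a)) := by
  have h1 := measurableSet_grD hD
  have h2 : Measurable fun p : α × (X × X) =>
      ((p.1, (e.symm p.2.1, e.symm p.2.2)) : α × (V × V)) :=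
    measurable_fst.prodMk ((e.symm.measurable.comp (measurable_fst.comp measurable_snd)).prodMk
      (e.symm.measurable.comp (measurable_snd.comp measurable_snd)))
  exact exists_code hU (h2 h1)

/-- Borel isomorphism of Borel graphs is `Σ¹₂`-hard. -/
theorem hard [TopologicalSpace α] [PolishSpace α] [BorelSpace α] (hX : ¬ Countable X)
    {U : ℕ → Set (X × X)} (hU : (Prod.instMeasurableSpace : MeasurableSpace (X × X)) =
      MeasurableSpace.generateFrom (range U)) {A : Set α} (hA : Sigma12 A) :
    ∃ f : α → Baire × Baire, Measurable f ∧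
      (∀ a, (f a).1 ∈ ForestCodes U ∧ (f a).2 ∈ ForestCodes U) ∧
      ∀ a, a ∈ A ↔ f a ∈ isoRel U := by
  obtain ⟨P, hP, hAP⟩ := hA
  obtain ⟨T, hpc, hTm, hTP⟩ := exists_tree hP
  let e : V ≃ᵐ X := PolishSpace.measurableEquivOfNotCountable not_countable_V hX
  have mG := measurableSet_GD hTm
  have mH := measurableSet_HD hTm
  have mG' : ∀ a, MeasurableSet (GD T a) := fun a => (measurable_const.prodMk measurable_id) mG
  have mH' : ∀ a, MeasurableSet (HD T a) := fun a => (measurable_const.prodMk measurable_id) mH
  obtain ⟨g, hg, hgc⟩ := exists_codes hU e mG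
  obtain ⟨h, hh, hhc⟩ := exists_codes hU e mH
  refine ⟨fun a => (h a, g a), hh.prodMk hg,
    fun a => ⟨⟨_, hhc a, borelGraph_grX e (mH' a), tameForest_grX e (mH' a)⟩,
      ⟨_, hgc a, borelGraph_grX e (mG' a), tameForest_grX e (mG' a)⟩⟩, fun a => ?_⟩
  rw [hAP]
  constructor
  · rintro ⟨y, hy⟩
    have hbr : ¬ ∃ z : ℕ → ℕ, ∀ n, (List.range n).map z ∈ T a y := by
      rw [← hTP]
      exact fun hc => hc hy
    obtain ⟨u, hu, huF⟩ := unif (hpc a y) hbr
    refine ⟨_, _, hhc a, hgc a, borelGraph_grX e (mH' a), borelGraph_grX e (mG' a), ?_⟩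
    let π : V → V := fun v => (pf u v.1, v.2)
    have hπm : Measurable π := ((measurable_pf hu).comp measurable_fst).prodMk measurable_snd
    have hπl : ∀ v, ((pg u (π v).1, (π v).2) : V) = v := fun v => by
      show (pg u (pf u v.1), v.2) = v
      rw [pg_pf]
    have hπr : ∀ v : V, π (pg u v.1, v.2) = v := fun v => by
      show (pf u (pg u v.1), v.2) = v
      rw [pf_pg]
    have hπb : Function.Bijective π :=
      ⟨fun v w hvw => by rw [← hπl v, ← hπl w, hvw], fun v => ⟨_, hπr v⟩⟩
    refine ⟨fun x => e (π (e.symm x)), e.measurable.comp (hπm.comp e.symm.measurable),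
      e.bijective.comp (hπb.comp e.symm.bijective), fun x x' => ?_⟩
    show (e.symm x, e.symm x') ∈ gr (HD T a) ↔
      (e.symm (e (π (e.symm x))), e.symm (e (π (e.symm x')))) ∈ gr (GD T a)
    rw [e.symm_apply_apply, e.symm_apply_apply]
    exact gr_iff (Function.LeftInverse.injective (pg_pf u)) (pf_code u) (pf_mem huF) _ _
  · rintro ⟨G, H, hG, hH, -, -, f, hf, hfb, hfe⟩
    have hG' := hG.unique (hhc a)
    have hH' := hH.unique (hgc a)
    subst hG'
    subst hH'
    by_contra hcon
    have hbr : ∀ y, ∃ z : ℕ → ℕ, ∀ n, (List.range n).map z ∈ T a y := by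
      intro y
      rw [← hTP]
      intro hy
      exact hcon ⟨y, hy⟩
    apply no_unif hbr
    let f' : V → V := fun v => e.symm (f (e v))
    have hf'm : Measurable f' := e.symm.measurable.comp (hf.comp e.measurable)
    have hf'b : Function.Bijective f' := e.symm.bijective.comp (hfb.comp e.bijective)
    have hf'e : ∀ v w, (v, w) ∈ gr (HD T a) ↔ (f' v, f' w) ∈ gr (GD T a) := by
      intro v w
      have h1 := hfe (e v) (e w)
      simp only [grX, mem_ofPred_eq, e.symm_apply_apply] at h1
      exact h1
    let bb : Baire → Blk := fun c => (true, c, z0, 0)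
    have hbb : ∀ c, bb c ∈ HD T a := fun c => Or.inr ⟨rfl, rfl, rfl⟩
    refine ⟨fun c => (f' (bb c, (0, 0))).1.2.2.1, ?_, fun c => ?_⟩
    · have h1 : Measurable fun c : Baire => ((bb c, (0, 0)) : V) :=
        (measurable_const.prodMk (measurable_id.prodMk measurable_const)).prodMk measurable_const
      exact measurable_fst.comp (measurable_snd.comp (measurable_snd.comp
        (measurable_fst.comp (hf'm.comp h1))))
    · obtain ⟨h1, h2⟩ := block_of_iso hf'b hf'e (hbb c)
      have h3 := h1.2
      rw [h2] at h3
      exact h3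

end lower

end Pool.Agent.TH723.BI
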